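import Pool.Agent.Q233.BN.Tight
import Pool.Agent.TH980.IM.Core
import Pool.Agent.TH980.IM.Main

set_option autoImplicit false

/-! Far off-diagonal boundary values tend to zero in measure. -/

open MeasureTheory Filter Topology Set Metric
open scoped ENNReal NNReal InnerProductSpace Real
open Pool.Agent.H12R2.And (Rz isUnit_sub sub_Rz im_inner norm_Rz_le diff_inner diff_Rz)
open Pool.Agent.TH980.IM.PR
open Pool.Agent.TH980.IM (cl cl_abs cl_eq cl_cont Rz_unique zk zs zk_im_pos continuous_zk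
  boundary_spm meas_gen spm BT_spm tendsto_zk ae_swap)

namespace Pool.Agent.Q233.BN

variable {ι : Type} [DecidableEq ι] [Countable ι]

omit [DecidableEq ι] in
theorem cofinite_cg : (cofinite : Filter ι).IsCountablyGenerated :=
  HasCountableBasis.isCountablyGenerated ⟨hasBasis_cofinite, Set.Countable.ofPred_finite⟩

theorem int_resample (ν : Measure ℝ) [IsProbabilityMeasure ν] {f : (ι → ℝ) × ℝ → ℂ}
    (hf : Measurable f) {δ : ℝ} (hδ : 0 < δ) (M : ℝ) :
    Tendsto (fun x => ∫⁻ E in Icc (-M) M,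
      ((PP ι ν).prod ν) {p | δ ≤ ‖f (p.1, E) - f (up x p, E)‖}) cofinite (𝓝 0) := by
  have := cofinite_cg (ι := ι)
  have hmeas : ∀ x : ι, Measurable fun E : ℝ =>
      ((PP ι ν).prod ν) {p | δ ≤ ‖f (p.1, E) - f (up x p, E)‖} := by
    intro x
    have hm : MeasurableSet {r : ℝ × ((ι → ℝ) × ℝ) |
        δ ≤ ‖f (r.2.1, r.1) - f (up x r.2, r.1)‖} := by
      apply measurableSet_le measurable_const
      apply Measurable.norm
      apply Measurable.sub
      · exact hf.comp ((measurable_fst.comp measurable_snd).prodMk measurable_fst)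
      · exact hf.comp (((meas_up x).comp measurable_snd).prodMk measurable_fst)
    exact measurable_measure_prodMk_left hm
  have h := tendsto_lintegral_filter_of_dominated_convergence
    (μ := volume.restrict (Icc (-M) M)) (l := (cofinite : Filter ι))
    (F := fun x E => ((PP ι ν).prod ν) {p | δ ≤ ‖f (p.1, E) - f (up x p, E)‖})
    (f := fun _ => 0) (fun _ => 1) (Eventually.of_forall hmeas)
    (Eventually.of_forall fun x => ae_of_all _ fun E => prob_le_one)
    (by rw [lintegral_const]; exact ENNReal.mul_ne_top ENNReal.one_ne_top (measure_ne_top _ _))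
    (ae_of_all _ fun E => resample_fun ν (hf.comp (measurable_id.prodMk measurable_const)) hδ)
  rw [lintegral_zero] at h
  exact h

omit [DecidableEq ι] [Countable ι] in
theorem low_bound (ν : Measure ℝ) [IsProbabilityMeasure ν] {a b ε0 : ℝ}
    (hab : 4 * ε0 ≤ |a - b|) (x : ι) {A : Set (ι → ℝ)} (hA : MeasurableSet A) :
    min (ν (ball a ε0)) (ν (ball b ε0)) * PP ι ν A ≤
      ((PP ι ν).prod ν) {p | p.1 ∈ A ∧ ε0 ≤ |p.2 - p.1 x|} := by
  have hWm : MeasurableSet {p : (ι → ℝ) × ℝ | p.1 ∈ A ∧ ε0 ≤ |p.2 - p.1 x|} :=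
    (measurable_fst hA).inter (measurableSet_le measurable_const
        (measurable_snd.sub ((measurable_pi_apply x).comp measurable_fst)).abs)
  rw [Measure.prod_apply hWm, ← setLIntegral_const, ← lintegral_indicator hA]
  apply lintegral_mono
  intro V
  by_cases hV : V ∈ A
  · rw [indicator_of_mem hV]
    rcases le_or_gt (2 * ε0) |V x - a| with h1 | h1
    · refine (min_le_left _ _).trans (measure_mono fun v hv => ?_)
      rw [Metric.mem_ball, Real.dist_eq] at hv
      refine ⟨hV, ?_⟩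
      simp only
      have := abs_sub_le (V x) v a
      rw [abs_sub_comm (V x) v] at this
      linarith
    · refine (min_le_right _ _).trans (measure_mono fun v hv => ?_)
      rw [Metric.mem_ball, Real.dist_eq] at hv
      refine ⟨hV, ?_⟩
      simp only
      have h2 := abs_sub_le a (V x) b
      have h3 := abs_sub_le (V x) v b
      rw [abs_sub_comm (V x) v] at h3
      rw [abs_sub_comm a (V x)] at h2
      linarith
  · rw [indicator_of_notMem hV]
    exact zero_le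

variable (P : Data ι)

theorem decayE (ν : Measure ℝ) [IsProbabilityMeasure ν] (hK0 : 0 ≤ P.K)
    (hK : ∀ᵐ v ∂ν, |v| ≤ P.K) {a b ε0 a0 : ℝ} (hε0 : 0 < ε0) (ha0 : 0 < a0)
    (hab : 4 * ε0 ≤ |a - b|)
    {h : ι → ι → (ι → ℝ) × ℝ → ℂ} (hm : ∀ x y, Measurable (h x y)) {E : ℝ}
    (hE : ∀ᵐ V ∂(PP ι ν), ∀ x y,
      Tendsto (fun k => P.GG V (zk k E) x y) atTop (𝓝 (h x y (V, E)))) (o x : ι)
    (hx : a0 ≤ |P.a x|) {δ C : ℝ} (hδ : 0 < δ) (hC : 0 < C) :
    min (ν (ball a ε0)) (ν (ball b ε0)) * PP ι ν {V | δ ≤ ‖h o x (V, E)‖} ≤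
      ((PP ι ν).prod ν) {p | a0 * ε0 * δ ^ 2 / (1 + 2 * P.K * C) ≤
        ‖h o o (p.1, E) - h o o (up x p, E)‖} + PP ι ν {V | C < ‖h x x (V, E)‖} := by
  set δ' : ℝ := a0 * ε0 * δ ^ 2 / (1 + 2 * P.K * C) with hδ'
  have hmE : ∀ x y, Measurable fun V : ι → ℝ => h x y (V, E) := fun x y =>
    (hm x y).comp (measurable_id.prodMk measurable_const)
  have hAm : MeasurableSet {V | δ ≤ ‖h o x (V, E)‖} :=
    measurableSet_le measurable_const (hmE o x).norm
  refine (low_bound ν hab x hAm).trans ?_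
  have e2 : ∀ᵐ p ∂((PP ι ν).prod ν), ∀ x' y : ι,
      Tendsto (fun k => P.GG (up x p) (zk k E) x' y) atTop (𝓝 (h x' y (up x p, E))) :=
    (mp_up ν x).quasiMeasurePreserving.ae hE
  have e1 : ∀ᵐ p ∂((PP ι ν).prod ν), ∀ x' y : ι,
      Tendsto (fun k => P.GG p.1 (zk k E) x' y) atTop (𝓝 (h x' y (p.1, E))) :=
    (measurePreserving_fst (μ := PP ι ν) (ν := ν)).quasiMeasurePreserving.ae hE
  have hK1 : ∀ᵐ p ∂((PP ι ν).prod ν), |p.2| ≤ P.K :=
    (measurePreserving_snd (μ := PP ι ν) (ν := ν)).quasiMeasurePreserving.ae hK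
  have hK2 : ∀ᵐ p ∂((PP ι ν).prod ν), |p.1 x| ≤ P.K := by
    have h1 : ∀ᵐ V ∂(PP ι ν), |V x| ≤ P.K := by
      have := (measurePreserving_eval_infinitePi (fun _ : ι => ν) x).quasiMeasurePreserving.ae hK
      exact this
    exact (measurePreserving_fst (μ := PP ι ν) (ν := ν)).quasiMeasurePreserving.ae h1
  have hsub : ({p | p.1 ∈ {V | δ ≤ ‖h o x (V, E)‖} ∧ ε0 ≤ |p.2 - p.1 x|} : Set ((ι → ℝ) × ℝ))
      ≤ᵐ[(PP ι ν).prod ν] ({p | δ' ≤ ‖h o o (p.1, E) - h o o (up x p, E)‖} ∪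
        Prod.fst ⁻¹' {V | C < ‖h x x (V, E)‖} : Set ((ι → ℝ) × ℝ)) := by
    filter_upwards [e1, e2, hK1, hK2] with p h1 h2 h3 h4
    intro hp
    obtain ⟨h5, h6⟩ : δ ≤ ‖h o x (p.1, E)‖ ∧ ε0 ≤ |p.2 - p.1 x| := hp
    by_cases h7 : C < ‖h x x (p.1, E)‖
    · exact Or.inr h7
    · left
      rw [not_lt] at h7
      show δ' ≤ ‖h o o (p.1, E) - h o o (up x p, E)‖
      -- the relation
      set τ : ℝ := P.a x * (p.2 - p.1 x) with hτ
      have hrel : (h o o (p.1, E) - h o o (up x p, E)) * (1 + (τ : ℂ) * h x x (p.1, E)) =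
          (τ : ℂ) * (h o x (p.1, E)) ^ 2 := by
        have hl := ((h1 o o).sub (h2 o o)).mul (((h1 x x).const_mul (τ : ℂ)).const_add 1)
        have hr := ((h1 o x).pow 2).const_mul (τ : ℂ)
        refine tendsto_nhds_unique hl (hr.congr fun k => ?_)
        have h8 := P.rank_one p.1 o x p.2 (zk_im_pos k E).ne'
        rw [cl_eq h3, cl_eq h4] at h8
        exact h8.symm
      have h8 := congrArg norm hrel
      rw [norm_mul, norm_mul, norm_pow, Complex.norm_real, Real.norm_eq_abs] at h8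
      have h9 : a0 * ε0 ≤ |τ| := by
        rw [hτ, abs_mul]
        exact mul_le_mul hx h6 hε0.le (ha0.le.trans hx)
      have h10 : |τ| ≤ 2 * P.K := by
        rw [hτ, abs_mul]
        calc |P.a x| * |p.2 - p.1 x| ≤ 1 * (2 * P.K) :=
              mul_le_mul (P.ha x) ((abs_sub _ _).trans (by linarith)) (abs_nonneg _) zero_le_one
          _ = 2 * P.K := one_mul _
      have h11 : ‖1 + (τ : ℂ) * h x x (p.1, E)‖ ≤ 1 + 2 * P.K * C := by
        refine (norm_add_le _ _).trans ?_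
        rw [norm_one, norm_mul, Complex.norm_real, Real.norm_eq_abs]
        have : |τ| * ‖h x x (p.1, E)‖ ≤ 2 * P.K * C :=
          mul_le_mul h10 h7 (norm_nonneg _) (by positivity)
        linarith
      rw [hδ', div_le_iff₀ (by positivity)]
      calc a0 * ε0 * δ ^ 2 ≤ |τ| * ‖h o x (p.1, E)‖ ^ 2 := by gcongr
        _ = ‖h o o (p.1, E) - h o o (up x p, E)‖ * ‖1 + (τ : ℂ) * h x x (p.1, E)‖ := h8.symm
        _ ≤ _ := mul_le_mul_of_nonneg_left h11 (norm_nonneg _)
  have hgm : MeasurableSet {V : ι → ℝ | C < ‖h x x (V, E)‖} :=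
    measurableSet_lt measurable_const (hmE x x).norm
  refine (measure_mono_ae hsub).trans ((measure_union_le _ _).trans ?_)
  rw [measurePreserving_fst.measure_preimage hgm.nullMeasurableSet]

theorem LL_apply (ν : Measure ℝ) [IsProbabilityMeasure ν] (M : ℝ) {S : Set ((ι → ℝ) × ℝ)}
    (hS : MeasurableSet S) :
    LL ι ν M S = ∫⁻ E in Icc (-M) M, PP ι ν {V | (V, E) ∈ S} := by
  unfold LL
  rw [Measure.prod_apply_symm hS]
  rfl

/-- far off-diagonal boundary values tend to zero in measure -/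
theorem decay_LL (ν : Measure ℝ) [IsProbabilityMeasure ν] (hK0 : 0 ≤ P.K)
    (hK : ∀ᵐ v ∂ν, |v| ≤ P.K) (hν : ∀ r : ℝ, ν {r} ≠ 1) {a0 : ℝ} (ha0 : 0 < a0)
    {h : ι → ι → (ι → ℝ) × ℝ → ℂ} (hm : ∀ x y, Measurable (h x y))
    (hh : ∀ᵐ q ∂((PP ι ν).prod volume), ∀ x y,
      Tendsto (fun k => P.GG q.1 (zk k q.2) x y) atTop (𝓝 (h x y q)))
    (o : ι) {M : ℝ} (hM : 0 ≤ M) {δ : ℝ} (hδ : 0 < δ) {η : ℝ≥0∞} (hη : 0 < η) :
    ∀ᶠ x in cofinite, a0 ≤ |P.a x| → LL ι ν M {q | δ ≤ ‖h o x q‖} ≤ η := by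
  obtain ⟨a, b, ε0, hε0, hab, ha, hb⟩ := Pool.Agent.TH980.IM.two_points hν
  set c0 : ℝ≥0∞ := min (ν (ball a ε0)) (ν (ball b ε0)) with hc0
  have hc0pos : c0 ≠ 0 := by
    rw [hc0]
    simp only [ne_eq, min_eq_iff, not_or, not_and]
    exact ⟨fun h => absurd h ha, fun h => absurd h hb⟩
  have hc0top : c0 ≠ ∞ := ne_top_of_le_ne_top (measure_ne_top _ _) (min_le_left _ _)
  rcases eq_or_ne η ∞ with rfl | hηtop
  · exact Eventually.of_forall fun x _ => le_top
  have hη' : 0 < c0 * η := ENNReal.mul_pos hc0pos hη.ne'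
  -- the tail
  obtain ⟨C', hC'0, hC'⟩ : ∃ C' : ℝ, 0 < C' ∧ ENNReal.ofReal (4 * tail 2 M C') ≤ c0 * η / 2 := by
    have h1 : Tendsto (fun C => ENNReal.ofReal (4 * tail 2 M C)) atTop (𝓝 0) := by
      have := (ENNReal.continuous_ofReal.tendsto _).comp ((tail_tendsto 2 M).const_mul 4)
      rw [mul_zero, ENNReal.ofReal_zero] at this
      exact this
    obtain ⟨C', h2, h3⟩ := ((ENNReal.tendsto_nhds_zero.1 h1 (c0 * η / 2)
      (ENNReal.half_pos hη'.ne')).and (eventually_gt_atTop 0)).exists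
    exact ⟨C', h3, h2⟩
  set C : ℝ := C' + 1 with hCdef
  have hC0 : 0 < C := by linarith
  set δ' : ℝ := a0 * ε0 * δ ^ 2 / (1 + 2 * P.K * C) with hδ'
  have hδ'0 : 0 < δ' := by positivity
  filter_upwards [(ENNReal.tendsto_nhds_zero.1 (int_resample ν (hm o o) hδ'0 M)) (c0 * η / 2)
    (ENNReal.half_pos hη'.ne')] with x hx hax
  have hSm : MeasurableSet {q : (ι → ℝ) × ℝ | δ ≤ ‖h o x q‖} :=
    measurableSet_le measurable_const (hm o x).norm
  have hTm : MeasurableSet {q : (ι → ℝ) × ℝ | C < ‖h x x q‖} :=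
    measurableSet_lt measurable_const (hm x x).norm
  have hE := ae_swap hh
  have hmeas : Measurable fun E : ℝ => ((PP ι ν).prod ν) {p | δ' ≤
      ‖h o o (p.1, E) - h o o (up x p, E)‖} := by
    have hm' : MeasurableSet {r : ℝ × ((ι → ℝ) × ℝ) |
        δ' ≤ ‖h o o (r.2.1, r.1) - h o o (up x r.2, r.1)‖} := by
      apply measurableSet_le measurable_const
      apply Measurable.norm
      apply Measurable.sub
      · exact (hm o o).comp ((measurable_fst.comp measurable_snd).prodMk measurable_fst)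
      · exact (hm o o).comp (((meas_up x).comp measurable_snd).prodMk measurable_fst)
    exact measurable_measure_prodMk_left hm'
  have hmain : c0 * LL ι ν M {q | δ ≤ ‖h o x q‖} ≤ c0 * η := by
    have hh' : ∀ᵐ q ∂(LL ι ν M), Tendsto
        (fun k => inner ℂ (ee x) (Rz (P.H q.1) (zk k q.2) (ee x))) atTop (𝓝 (h x x q)) := by
      have hac : LL ι ν M ≪ (PP ι ν).prod volume := by
        unfold LL
        exact Measure.AbsolutelyContinuous.rfl.prod
          (Measure.absolutelyContinuous_of_le Measure.restrict_le_self)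
      filter_upwards [hac.ae_le hh] with q hq
      exact (hq x x).congr fun k => P.GG_inner _ _ x x
    have hR : ‖(ee x : L2 ι)‖ + ‖(ee x : L2 ι)‖ ≤ 2 := by
      rw [norm_ee]
      norm_num
    calc c0 * LL ι ν M {q | δ ≤ ‖h o x q‖}
        = ∫⁻ E in Icc (-M) M, c0 * PP ι ν {V | δ ≤ ‖h o x (V, E)‖} := by
          rw [LL_apply ν M hSm, lintegral_const_mul' _ _ hc0top]
          rfl
      _ ≤ ∫⁻ E in Icc (-M) M, (((PP ι ν).prod ν) {p | δ' ≤
            ‖h o o (p.1, E) - h o o (up x p, E)‖} + PP ι ν {V | C < ‖h x x (V, E)‖}) := by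
          apply lintegral_mono_ae
          apply ae_restrict_of_ae
          filter_upwards [hE] with E hE'
          exact decayE P ν hK0 hK hε0 ha0 hab hm hE' o x hax hδ hC0
      _ = (∫⁻ E in Icc (-M) M, ((PP ι ν).prod ν) {p | δ' ≤
            ‖h o o (p.1, E) - h o o (up x p, E)‖}) + LL ι ν M {q | C < ‖h x x q‖} := by
          rw [lintegral_add_left hmeas, LL_apply ν M hTm]
          rfl
      _ ≤ c0 * η / 2 + c0 * η / 2 := add_le_add hx ((lim_tail P ν hM hC'0 hR hh').trans hC')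
      _ = c0 * η := ENNReal.add_halves _
  exact (ENNReal.mul_le_mul_iff_right hc0pos hc0top).1 hmain

end Pool.Agent.Q233.BN
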