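import Pool.Agent.Q233.BN.Main

set_option autoImplicit false

/-! The final form of the bottleneck theorem. -/

open MeasureTheory Filter Topology Set
open scoped ENNReal NNReal InnerProductSpace
open Pool.Agent.TH980.IM.PR
open Pool.Agent.TH980.IM (cl cl_abs cl_eq)

namespace Pool.Agent.Q233.BN

section

variable {ι : Type} [DecidableEq ι]

theorem realSA_of {T : L2 ι →L[ℂ] L2 ι}
    (h : ∀ x y, ((T (ee y)) x).im = 0 ∧ (T (ee y)) x = (T (ee x)) y) : RealSA T := by
  refine ⟨?_, fun x y => (h y x).1⟩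
  rw [ContinuousLinearMap.isSelfAdjoint_iff']
  apply lp.ext_continuousLinearMap (by norm_num)
  intro i
  ext
  rename_i j
  simp only [ContinuousLinearMap.comp_apply, lp.singleContinuousLinearMap_apply]
  change (ContinuousLinearMap.adjoint T (ee i)) j = (T (ee i)) j
  rw [← inner_ee j, ContinuousLinearMap.adjoint_inner_right, inner_ee']
  rw [(Complex.conj_eq_iff_im).2 (h i j).1]
  exact (h i j).2

/-- the general form -/
theorem part1 [Countable ι] (T : L2 ι →L[ℂ] L2 ι)
    (hT : ∀ x y, ((T (ee y)) x).im = 0 ∧ (T (ee y)) x = (T (ee x)) y)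
    (B : ℕ → Set ι) (hBf : ∀ k, (B k).Finite) (m : ℕ)
    (hm : ∀ k, {x | x ∈ B k ∧ ∃ y, y ∉ B k ∧ (T (ee y)) x ≠ 0}.encard ≤ m)
    (hB : ∀ x, ∀ᶠ k in atTop, x ∈ B k ∧ x ∉ {x | x ∈ B k ∧ ∃ y, y ∉ B k ∧ (T (ee y)) x ≠ 0})
    (a : ι → ℝ) (ha : ∀ x, |a x| ≤ 1) {a0 : ℝ} (ha0 : 0 < a0)
    (hda : ∀ k, ∀ x ∈ {x | x ∈ B k ∧ ∃ y, y ∉ B k ∧ (T (ee y)) x ≠ 0}, a0 ≤ |a x|)
    (ν : Measure ℝ) [IsProbabilityMeasure ν] (K : ℝ) (hK : ν (Icc (-K) K)ᶜ = 0)
    (hν : ∀ r : ℝ, ν {r} ≠ 1) :
    ∀ᵐ ω ∂(Measure.infinitePi fun _ : ι => ν), ∀ H : L2 ι →L[ℂ] L2 ι,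
      (∀ u x, (H u) x = (T u) x + ((a x * ω x : ℝ) : ℂ) * u x) → Sing H := by
  have hKae : ∀ᵐ v ∂ν, |v| ≤ K := by
    rw [ae_iff]
    refine measure_mono_null ?_ hK
    intro v hv hv'
    exact hv (abs_le.2 hv')
  have hK0 : 0 ≤ K := by
    obtain ⟨v, hv⟩ := hKae.exists
    exact (abs_nonneg v).trans hv
  have hsa := realSA_of hT
  let P : Data ι := ⟨T, hsa, a, ha, K⟩
  have hXf : ∀ k, {x | x ∈ B k ∧ ∃ y, y ∉ B k ∧ (T (ee y)) x ≠ 0}.Finite := fun k =>
    (hBf k).subset fun x hx => hx.1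
  have hmain := main P ν hK0 hKae hν ha0 (B := fun k => (hBf k).toFinset)
    (X := fun k => (hXf k).toFinset) (m := m) (fun x => ?_) (fun k x => ?_) (fun k => ?_)
    (fun k x hx => ?_) (fun x => ?_)
  · have hKall : ∀ᵐ V ∂(PP ι ν), ∀ x : ι, |V x| ≤ K := by
      rw [ae_all_iff]
      intro x
      exact (measurePreserving_eval_infinitePi (fun _ : ι => ν) x).quasiMeasurePreserving.ae hKae
    filter_upwards [hmain, hKall] with V hV1 hV2 H hH
    have hHV : H = P.H V := by
      ext u x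
      rw [hH u x, P.H_apply]
      change _ = (T u) x + ((a x * cl K (V x) : ℝ) : ℂ) * u x
      rw [cl_eq (hV2 x)]
    rw [hHV]
    exact hV1
  · filter_upwards [hB x] with k hk
    exact (hBf k).mem_toFinset.2 hk.1
  · rw [Set.Finite.mem_toFinset, Set.Finite.mem_toFinset]
    refine and_congr_right fun _ => exists_congr fun y => ?_
    rw [Set.Finite.mem_toFinset]
    refine and_congr_right fun _ => ?_
    rw [(hT x y).2]
  · have h1 := hm k
    rw [(hXf k).encard_eq_coe_toFinset_card] at h1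
    exact_mod_cast h1
  · exact hda k x ((hXf k).mem_toFinset.1 hx)
  · filter_upwards [hB x] with k hk
    intro h
    exact hk.2 ((hXf k).mem_toFinset.1 h)

end

section

/-- extension by zero of a function on `S` to the lattice -/
noncomputable def ext {d : ℕ} {S : Set (Fin (d + 1) → ℤ)} (u : S → ℂ) (x : Fin (d + 1) → ℤ) : ℂ :=
  open Classical in if h : x ∈ S then u ⟨x, h⟩ else 0

/-- the discrete Laplacian -/
def lap {d : ℕ} (g : (Fin (d + 1) → ℤ) → ℂ) (x : Fin (d + 1) → ℤ) : ℂ :=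
  ∑ i : Fin (d + 1), ((g (x + Pi.single i (1 : ℤ)) - g x) + (g (x - Pi.single i (1 : ℤ)) - g x))

/-- the sup norm -/
def supNorm {d : ℕ} (x : Fin (d + 1) → ℤ) : ℕ := Finset.univ.sup fun i => (x i).natAbs

variable {d : ℕ} {S : Set (Fin (d + 1) → ℤ)}

theorem ext_ee (y : S) (z : Fin (d + 1) → ℤ) :
    ext (ee y : L2 S) z = if z = y.1 then 1 else 0 := by
  unfold ext
  split_ifs with h1 h2 h2
  · rw [ee_apply, if_pos (Subtype.ext h2)]
  · rw [ee_apply, if_neg fun h => h2 (congrArg Subtype.val h)]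
  · exact absurd (h2 ▸ y.2) h1
  · rfl

theorem lap_symm (x y : Fin (d + 1) → ℤ) :
    lap (fun z => if z = y then (1 : ℂ) else 0) x =
      lap (fun z => if z = x then (1 : ℂ) else 0) y := by
  unfold lap
  refine Finset.sum_congr rfl fun i _ => ?_
  have e1 : (x + Pi.single i (1 : ℤ) = y) ↔ (y - Pi.single i (1 : ℤ) = x) := by
    constructor
    · intro h; rw [← h]; abel
    · intro h; rw [← h]; abel
  have e2 : (x - Pi.single i (1 : ℤ) = y) ↔ (y + Pi.single i (1 : ℤ) = x) := by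
    constructor
    · intro h; rw [← h]; abel
    · intro h; rw [← h]; abel
  have e3 : (x = y) ↔ (y = x) := eq_comm
  simp only [e1, e2, e3]
  ring

theorem lap_real (x y : Fin (d + 1) → ℤ) :
    (lap (fun z => if z = y then (1 : ℂ) else 0) x).im = 0 := by
  unfold lap
  rw [Complex.im_sum]
  refine Finset.sum_eq_zero fun i _ => ?_
  have h : ∀ p : Prop, [Decidable p] → (if p then (1 : ℂ) else 0).im = 0 := by
    intro p _
    split_ifs <;> simp
  simp only [Complex.add_im, Complex.sub_im, h]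
  ring

theorem supNorm_le {x : Fin (d + 1) → ℤ} {n : ℕ} : supNorm x ≤ n ↔ ∀ i, (x i).natAbs ≤ n := by
  unfold supNorm
  rw [Finset.sup_le_iff]
  simp

theorem supNorm_step {x e : Fin (d + 1) → ℤ} (he : ∀ i, (e i).natAbs ≤ 1) :
    supNorm (x + e) ≤ supNorm x + 1 := by
  rw [supNorm_le]
  intro i
  have h1 : (x i).natAbs ≤ supNorm x := (supNorm_le.1 le_rfl) i
  have h2 := he i
  rw [Pi.add_apply]
  have h3 := Int.natAbs_add_le (x i) (e i)
  omega

theorem single_le (i j : Fin (d + 1)) (c : ℤ) (hc : c.natAbs ≤ 1) :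
    ((Pi.single i c : Fin (d + 1) → ℤ) j).natAbs ≤ 1 := by
  by_cases h : j = i
  · subst h
    rw [Pi.single_eq_same]
    exact hc
  · rw [Pi.single_eq_of_ne h]
    simp

theorem lap_ne {x y : Fin (d + 1) → ℤ} (hxy : x ≠ y)
    (h : lap (fun z => if z = y then (1 : ℂ) else 0) x ≠ 0) : supNorm y ≤ supNorm x + 1 := by
  unfold lap at h
  obtain ⟨i, _, hi⟩ := Finset.exists_ne_zero_of_sum_ne_zero h
  simp only [if_neg hxy, sub_zero] at hi
  by_cases h1 : x + Pi.single i (1 : ℤ) = y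
  · rw [← h1]
    exact supNorm_step fun j => single_le i j 1 (by norm_num)
  · by_cases h2 : x - Pi.single i (1 : ℤ) = y
    · rw [← h2, sub_eq_add_neg, ← Pi.single_neg]
      exact supNorm_step fun j => single_le i j (-1) (by norm_num)
    · exfalso
      apply hi
      rw [if_neg h1, if_neg h2, add_zero]

theorem finite_ball (n : ℕ) : {x : S | supNorm x.1 ≤ n}.Finite := by
  have h1 : {x : Fin (d + 1) → ℤ | supNorm x ≤ n}.Finite := by
    refine (Set.finite_Icc (fun _ : Fin (d + 1) => -(n : ℤ)) (fun _ => (n : ℤ))).subset ?_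
    intro x hx
    have hx' := supNorm_le.1 hx
    constructor
    · intro i
      have := hx' i
      simp only
      omega
    · intro i
      have := hx' i
      simp only
      omega
  exact h1.preimage Subtype.val_injective.injOn

/-- sets with few points on infinitely many spheres -/
theorem part2 (m : ℕ)
    (hS : ∃ᶠ n : ℕ in atTop, {x : Fin (d + 1) → ℤ | x ∈ S ∧ supNorm x = n}.encard ≤ m)
    (ν : Measure ℝ) [IsProbabilityMeasure ν] (K : ℝ) (hK : ν (Icc (-K) K)ᶜ = 0)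
    (hν : ∀ r : ℝ, ν {r} ≠ 1) :
    ∀ᵐ ω ∂(Measure.infinitePi fun _ : S => ν), ∀ H : L2 S →L[ℂ] L2 S,
      (∀ (u : L2 S) (x : S), (H u) x = -lap (ext u) x + (ω x : ℂ) * ext u x) → Sing H := by
  have hKae : ∀ᵐ v ∂ν, |v| ≤ K := by
    rw [ae_iff]
    refine measure_mono_null ?_ hK
    intro v hv hv'
    exact hv (abs_le.2 hv')
  have hKall : ∀ᵐ V ∂(Measure.infinitePi fun _ : S => ν), ∀ x : S, |V x| ≤ K := by
    rw [ae_all_iff]
    intro x
    exact (measurePreserving_eval_infinitePi (fun _ : S => ν) x).quasiMeasurePreserving.ae hKae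
  have hext : ∀ (u : L2 S) (x : S), ext u x.1 = u x := by
    intro u x
    unfold ext
    rw [dif_pos x.2]
  by_cases hex : ∃ T : L2 S →L[ℂ] L2 S, ∀ (u : L2 S) (x : S), (T u) x = -lap (ext u) x
  · obtain ⟨T, hT⟩ := hex
    have hTe : ∀ x y : S, (T (ee y)) x = -lap (fun z => if z = y.1 then (1 : ℂ) else 0) x.1 := by
      intro x y
      rw [hT]
      congr 2
      funext z
      exact ext_ee y z
    obtain ⟨φ, hφ, hφ2⟩ := extraction_of_frequently_atTop hS
    have hdoor : ∀ k, ∀ x : S, x ∈ {x : S | x ∈ {x : S | supNorm x.1 ≤ φ k} ∧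
        ∃ y, y ∉ {x : S | supNorm x.1 ≤ φ k} ∧ (T (ee y)) x ≠ 0} → supNorm x.1 = φ k := by
      rintro k x ⟨h1, y, h2, h3⟩
      have h1' : supNorm x.1 ≤ φ k := h1
      have h2' : ¬ supNorm y.1 ≤ φ k := h2
      have hxy : x.1 ≠ y.1 := by
        intro h
        rw [h] at h1'
        exact h2' h1'
      rw [hTe, neg_ne_zero] at h3
      have h4 := lap_ne hxy h3
      omega
    have hp := part1 T (fun x y => ⟨by rw [hTe, Complex.neg_im, lap_real, neg_zero],
      by rw [hTe, hTe, lap_symm]⟩) (fun k => {x : S | supNorm x.1 ≤ φ k})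
      (fun k => finite_ball (φ k)) m (fun k => ?_) (fun x => ?_) (fun _ => (1 : ℝ))
      (fun x => by rw [abs_one]) one_pos (fun k x _ => by rw [abs_one]) ν K hK hν
    · filter_upwards [hp] with V hV H hH
      apply hV H
      intro u x
      rw [hH, hT, one_mul, hext]
    · have h1 : ({x : S | x ∈ {x : S | supNorm x.1 ≤ φ k} ∧
          ∃ y, y ∉ {x : S | supNorm x.1 ≤ φ k} ∧ (T (ee y)) x ≠ 0}).encard ≤
          {x : S | supNorm x.1 = φ k}.encard := Set.encard_le_encard (hdoor k)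
      have h2 : {x : S | supNorm x.1 = φ k}.encard =
          {x : Fin (d + 1) → ℤ | x ∈ S ∧ supNorm x = φ k}.encard := by
        rw [← Subtype.val_injective.encard_image]
        congr 1
        ext z
        constructor
        · rintro ⟨w, hw, rfl⟩
          exact ⟨w.2, hw⟩
        · rintro ⟨hz, hw⟩
          exact ⟨⟨z, hz⟩, hw, rfl⟩
      exact h1.trans (h2.le.trans (hφ2 k))
    · filter_upwards [hφ.tendsto_atTop.eventually_gt_atTop (supNorm x.1)] with k hk
      refine ⟨le_of_lt hk, fun h => ?_⟩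
      have := hdoor k x h
      omega
  · filter_upwards [hKall] with V hV H hH
    exfalso
    apply hex
    obtain ⟨D, hD⟩ := exists_dg (fun _ : S => (1 : ℝ)) (fun x => by rw [abs_one]) K V
    refine ⟨H - D, fun u x => ?_⟩
    change (H u) x - (D u) x = _
    rw [hH, hD, one_mul, cl_eq (hV x), hext]
    ring

end

end Pool.Agent.Q233.BN
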