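import Pool.Agent.Q233.BN.Op

set_option autoImplicit false

/-! The flux through the boundary of a finite set. -/

open MeasureTheory Filter Topology Set
open scoped ENNReal NNReal InnerProductSpace
open Pool.Agent.H12R2.And (Rz isUnit_sub sub_Rz im_inner norm_Rz_le diff_inner diff_Rz)
open Pool.Agent.TH980.IM.PR
open Pool.Agent.TH980.IM (cl cl_abs cl_eq cl_cont Rz_unique zk zk_im_pos continuous_zk boundary_spm
  meas_gen spm BT_spm tendsto_zk)

namespace Pool.Agent.Q233.BN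

variable {ι : Type} [DecidableEq ι] (P : Data ι)

theorem entry_le (x y : ι) : ‖(P.T (ee x)) y‖ ≤ ‖P.T‖ := by
  calc ‖(P.T (ee x)) y‖ ≤ ‖P.T (ee x)‖ := lp.norm_apply_le_norm (by norm_num) _ _
    _ ≤ ‖P.T‖ * ‖(ee x : L2 ι)‖ := P.T.le_opNorm _
    _ = ‖P.T‖ := by rw [norm_ee, mul_one]

/-- the part of the row of `x` outside `B` -/
noncomputable def ow (B : Finset ι) (x : ι) : L2 ι :=
  P.T (ee x) - ∑ y ∈ B, ((P.T (ee x)) y) • ee y

theorem ow_apply (B : Finset ι) (x y : ι) :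
    (ow P B x) y = if y ∈ B then 0 else (P.T (ee x)) y := by
  rw [← inner_ee y, ow, inner_sub_right, inner_sum]
  simp only [inner_smul_right, inner_ee, ee_apply, mul_ite, mul_one, mul_zero]
  rw [Finset.sum_ite_eq B y]
  split_ifs <;> simp

omit [DecidableEq ι] in
theorem norm_sq_tsum (f : L2 ι) : ‖f‖ ^ 2 = ∑' x, ‖f x‖ ^ 2 := by
  have h1 := lp.norm_rpow_eq_tsum (by norm_num : 0 < (2 : ℝ≥0∞).toReal) f
  simpa using h1

omit [DecidableEq ι] in
theorem summable_sq (f : L2 ι) : Summable fun x => ‖f x‖ ^ 2 := by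
  have := (lp.memℓp f).summable (by norm_num : 0 < (2 : ℝ≥0∞).toReal)
  simpa using this

theorem norm_ow (B : Finset ι) (x : ι) : ‖ow P B x‖ ≤ ‖P.T‖ := by
  have h1 : ‖ow P B x‖ ^ 2 ≤ ‖P.T (ee x)‖ ^ 2 := by
    rw [norm_sq_tsum, norm_sq_tsum]
    refine (summable_sq _).tsum_le_tsum (fun y => ?_) (summable_sq _)
    rw [ow_apply]
    split_ifs
    · rw [norm_zero, zero_pow (by norm_num)]
      positivity
    · exact le_rfl
  have h2 : ‖ow P B x‖ ≤ ‖P.T (ee x)‖ := by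
    have := abs_le_of_sq_le_sq' h1 (norm_nonneg _)
    exact this.2
  calc ‖ow P B x‖ ≤ ‖P.T (ee x)‖ := h2
    _ ≤ ‖P.T‖ * ‖(ee x : L2 ι)‖ := P.T.le_opNorm _
    _ = ‖P.T‖ := by rw [norm_ee, mul_one]

/-- the doors of `B`: the points of `B` which are joined to the outside -/
def Doors (B X : Finset ι) : Prop :=
  ∀ x, x ∈ X ↔ x ∈ B ∧ ∃ y, y ∉ B ∧ (P.T (ee x)) y ≠ 0

theorem T_split (B : Finset ι) (u : L2 ι) (x : ι) : (P.T u) x =
    ∑ y ∈ B, (P.T (ee x)) y * u y + inner ℂ (ow P B x) u := by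
  have h0 : (P.T u) x = inner ℂ (P.T (ee x)) u := by
    rw [← inner_ee x (P.T u)]
    exact (P.hT.sa.isSymmetric (ee x) u).symm
  rw [h0, ow, inner_sub_left, sum_inner]
  have h1 : ∀ y ∈ B, inner ℂ (((P.T (ee x)) y) • ee y) u = (P.T (ee x)) y * u y := by
    intro y _
    rw [inner_smul_left, inner_ee, Complex.conj_eq_iff_im.2 (P.hT.re x y)]
  rw [Finset.sum_congr rfl h1]
  ring

theorem ow_zero {B X : Finset ι} (hX : Doors P B X) {x : ι} (hx : x ∈ B) (hx' : x ∉ X) :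
    ow P B x = 0 := by
  ext y
  rw [ow_apply]
  split_ifs with h
  · rfl
  · by_contra h2
    exact hx' ((hX x).2 ⟨hx, y, h, h2⟩)

theorem sym_sum {B : Finset ι} (u : L2 ι) :
    (∑ x ∈ B, ∑ y ∈ B, (starRingEnd ℂ) (u x) * ((P.T (ee x)) y * u y)).im = 0 := by
  set s := ∑ x ∈ B, ∑ y ∈ B, (starRingEnd ℂ) (u x) * ((P.T (ee x)) y * u y) with hs
  rw [← Complex.conj_eq_iff_im, hs, map_sum]
  simp only [map_sum, map_mul, Complex.conj_conj]
  rw [Finset.sum_comm]
  refine Finset.sum_congr rfl fun y _ => Finset.sum_congr rfl fun x _ => ?_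
  rw [symm_entry P.hT x y, Complex.conj_eq_iff_im.2 (P.hT.re y x)]
  ring

/-- the flux identity -/
theorem flux_le (V : ι → ℝ) {z : ℂ} (hz : 0 < z.im) {B X : Finset ι}
    (hX : Doors P B X) {o : ι} (ho : o ∈ B) :
    (P.GG V z o o).im ≤ z.im * ∑ x ∈ B, ‖P.GG V z x o‖ ^ 2 +
      ∑ x ∈ X, ‖P.GG V z x o‖ * ‖inner ℂ (ow P B x) (Rz (P.H V) z (ee o))‖ := by
  set u : L2 ι := Rz (P.H V) z (ee o) with hu
  have hux : ∀ x, P.GG V z x o = u x := fun x => rfl
  simp only [hux]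
  have heq := sub_Rz (P.H_real V).sa hz.ne' (ee o)
  rw [← hu] at heq
  have heqx : ∀ x, (P.H V u) x = z * u x + (ee o : L2 ι) x := by
    intro x
    have h1 := congrArg (fun f : L2 ι => f x) heq
    change (P.H V u) x - z * u x = _ at h1
    linear_combination h1
  -- the quadratic form
  have hq : ∑ x ∈ B, (starRingEnd ℂ) (u x) * (P.H V u) x =
      z * ((∑ x ∈ B, ‖u x‖ ^ 2 : ℝ) : ℂ) + (starRingEnd ℂ) (u o) := by
    have h1 : ∀ x ∈ B, (starRingEnd ℂ) (u x) * (P.H V u) x =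
        z * ((‖u x‖ ^ 2 : ℝ) : ℂ) + if x = o then (starRingEnd ℂ) (u o) else 0 := by
      intro x _
      rw [heqx, ee_apply, mul_add]
      congr 1
      · rw [Complex.ofReal_pow, ← Complex.conj_mul']
        ring
      · split_ifs with h
        · rw [h, mul_one]
        · rw [mul_zero]
    rw [Finset.sum_congr rfl h1, Finset.sum_add_distrib, ← Finset.mul_sum, Complex.ofReal_sum,
      Finset.sum_ite_eq' B o, if_pos ho]
  have hXB : X ⊆ B := fun x hx => ((hX x).1 hx).1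
  have hq2 : ∑ x ∈ B, (starRingEnd ℂ) (u x) * (P.H V u) x =
      ∑ x ∈ B, ∑ y ∈ B, (starRingEnd ℂ) (u x) * ((P.T (ee x)) y * u y) +
      ∑ x ∈ X, (starRingEnd ℂ) (u x) * inner ℂ (ow P B x) u +
      ((∑ x ∈ B, P.a x * cl P.K (V x) * ‖u x‖ ^ 2 : ℝ) : ℂ) := by
    have h2 : ∑ x ∈ X, (starRingEnd ℂ) (u x) * inner ℂ (ow P B x) u =
        ∑ x ∈ B, (starRingEnd ℂ) (u x) * inner ℂ (ow P B x) u := by
      apply Finset.sum_subset hXB
      intro x hx hx'
      rw [ow_zero P hX hx hx', inner_zero_left, mul_zero]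
    rw [h2, Complex.ofReal_sum, ← Finset.sum_add_distrib, ← Finset.sum_add_distrib]
    refine Finset.sum_congr rfl fun x hx => ?_
    rw [P.H_apply, T_split P B u x, mul_add, mul_add, Finset.mul_sum]
    congr 1
    push_cast
    rw [← Complex.conj_mul']
    ring
  have him := congrArg Complex.im (hq.symm.trans hq2)
  rw [Complex.add_im, Complex.add_im, Complex.add_im, sym_sum, Complex.ofReal_im, zero_add,
    add_zero, Complex.mul_im, Complex.ofReal_re, Complex.ofReal_im, mul_zero, zero_add,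
    Complex.conj_im] at him
  have hb : |(∑ x ∈ X, (starRingEnd ℂ) (u x) * inner ℂ (ow P B x) u).im| ≤
      ∑ x ∈ X, ‖u x‖ * ‖inner ℂ (ow P B x) u‖ := by
    refine (Complex.abs_im_le_norm _).trans ((norm_sum_le _ _).trans ?_)
    refine Finset.sum_le_sum fun x _ => ?_
    rw [norm_mul, RCLike.norm_conj]
  have h3 := (abs_le.1 hb).1
  linarith

/-- the flux inequality for the boundary values -/
theorem flux_lim {V : ι → ℝ} {E : ℝ} {h : ι → ι → ℂ}
    (hh : ∀ x y, Tendsto (fun k => P.GG V (zk k E) x y) atTop (𝓝 (h x y)))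
    {B X : Finset ι} (hX : Doors P B X) {o : ι} (ho : o ∈ B) {g : ι → ℂ}
    (hg : ∀ x, Tendsto (fun k => inner ℂ (ow P B x) (Rz (P.H V) (zk k E) (ee o))) atTop
      (𝓝 (g x))) :
    (h o o).im ≤ ∑ x ∈ X, ‖h o x‖ * ‖g x‖ := by
  have hs : ∀ x y, h x y = h y x := by
    intro x y
    refine tendsto_nhds_unique (hh x y) ((hh y x).congr fun k => ?_)
    exact P.GG_symm V (zk_im_pos k E).ne' y x
  have h1 : Tendsto (fun k => (P.GG V (zk k E) o o).im) atTop (𝓝 (h o o).im) :=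
    (Complex.continuous_im.tendsto _).comp (hh o o)
  have h2 : Tendsto (fun k => (zk k E).im * ∑ x ∈ B, ‖P.GG V (zk k E) x o‖ ^ 2 +
      ∑ x ∈ X, ‖P.GG V (zk k E) x o‖ * ‖inner ℂ (ow P B x) (Rz (P.H V) (zk k E) (ee o))‖) atTop
      (𝓝 (0 * ∑ x ∈ B, ‖h x o‖ ^ 2 + ∑ x ∈ X, ‖h x o‖ * ‖g x‖)) := by
    have h3 : Tendsto (fun k => (zk k E).im) atTop (𝓝 0) := by
      have := (Complex.continuous_im.tendsto _).comp (tendsto_zk E)
      rw [Complex.ofReal_im] at this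
      exact this
    refine (h3.mul (tendsto_finsetSum _ fun x _ => ((hh x o).norm.pow 2))).add
      (tendsto_finsetSum _ fun x _ => ((hh x o).norm.mul (hg x).norm))
  have h4 := le_of_tendsto_of_tendsto' h1 h2 fun k => flux_le P V (zk_im_pos k E) hX ho
  rw [zero_mul, zero_add] at h4
  refine h4.trans (le_of_eq ?_)
  refine Finset.sum_congr rfl fun x _ => ?_
  rw [hs x o]

end Pool.Agent.Q233.BN
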