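import Pool.Agent.Q233.BN.Dec
import Pool.Agent.Q233.BN.Flux

set_option autoImplicit false

/-! No absolutely continuous spectrum in the presence of infinitely many bounded cut sets. -/

open MeasureTheory Filter Topology Set Metric
open scoped ENNReal NNReal InnerProductSpace Real
open Pool.Agent.H12R2.And (Rz isUnit_sub sub_Rz im_inner norm_Rz_le diff_inner diff_Rz gg
  singular_on mutuallySingular_of_rnDeriv)
open Pool.Agent.TH980.IM.PR
open Pool.Agent.TH980.IM (cl cl_abs cl_eq cl_cont Rz_unique zk zs zk_im_pos continuous_zk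
  boundary_spm meas_gen spm BT_spm tendsto_zk ae_swap qn qn_sq qn_nonneg qn_sum dn dn_nonneg kap
  kap_pos BT ae_im_tendsto tendsto_sk)

namespace Pool.Agent.Q233.BN

/-- all spectral measures of `T` are singular with respect to the Lebesgue measure -/
def Sing {F : Type*} [NormedAddCommGroup F] [InnerProductSpace ℂ F] (T : F →L[ℂ] F) : Prop :=
  ∀ (ψ : F) (μ : Measure ℝ), IsFiniteMeasure μ →
    (∀ z : ℂ, z.im ≠ 0 → (∫ x, ((x : ℂ) - z)⁻¹ ∂μ) =
      inner ℂ ψ (Ring.inverse (T - z • (1 : F →L[ℂ] F)) ψ)) →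
    μ ⟂ₘ (volume : Measure ℝ)

variable {ι : Type} [DecidableEq ι]

/-- finite combinations of unit vectors -/
def Dn (ι : Type) [DecidableEq ι] : Set (L2 ι) :=
  {φ | ∃ (s : Finset ι) (c : ι → ℂ), φ = ∑ x ∈ s, c x • ee x}

theorem Dn_dense (ψ : L2 ι) (δ : ℝ) (hδ : 0 < δ) : ∃ φ ∈ Dn ι, ‖ψ - φ‖ < δ := by
  have h := lp.hasSum_single (p := 2) (by norm_num) ψ
  have h2 := (Metric.tendsto_nhds.1 h) δ hδ
  obtain ⟨s, hs⟩ := h2.exists
  refine ⟨∑ i ∈ s, lp.single 2 i (ψ i), ⟨s, fun i => ψ i, ?_⟩, ?_⟩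
  · refine Finset.sum_congr rfl fun i _ => ?_
    unfold ee
    rw [← lp.single_smul, smul_eq_mul, mul_one]
  · rw [← dist_eq_norm, dist_comm]; exact hs

variable (P : Data ι) [Countable ι]

theorem no_ac {V : ι → ℝ} {h : ι → ℝ → ℂ}
    (hE : ∀ᵐ E : ℝ, ∀ x : ι, Tendsto (fun k => P.GG V (zk k E) x x) atTop (𝓝 (h x E)) ∧
      (h x E).im ≤ 0) : Sing (P.H V) := by
  intro φ μ hμf hμ
  have hsa := (P.H_real V).sa
  set T := P.H V with hTdef
  have hB : MeasurableSet (univ : Set ℝ) := MeasurableSet.univ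
  suffices hs : (μ.restrict univ) ⟂ₘ volume by rwa [Measure.restrict_univ] at hs
  apply mutuallySingular_of_rnDeriv hB
  have hε : ∀ k : ℕ, (0 : ℝ) < 1 / ((k : ℝ) + 1) := fun k => by positivity
  have hunit : ∀ᵐ (E : ℝ), ∀ x : ι,
      Tendsto (fun k : ℕ => qn T ((E : ℂ) + ((1 / ((k : ℝ) + 1) : ℝ) : ℂ) * Complex.I) (ee x))
        atTop (𝓝 0) := by
    have h1 : ∀ᵐ E : ℝ, ∀ x : ι, ∃ l : ℂ,
        Tendsto (fun k => inner ℂ (ee x) (Rz T (zk k E) (ee x))) atTop (𝓝 l) ∧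
        l.im = kap * dn hsa (ee x) E := by
      rw [ae_all_iff]
      exact fun x => boundary_spm hsa (ee x)
    have h2 : ∀ᵐ (E : ℝ), ∀ x : ι,
        Tendsto (fun η : ℝ => (BT (spm hsa (ee x)) (E + η * Complex.I)).im) (𝓝[>] 0)
        (𝓝 (kap * ((spm hsa (ee x)).rnDeriv volume E).toReal)) := by
      rw [ae_all_iff]
      exact fun x => ae_im_tendsto _
    filter_upwards [h1, h2, hE] with E e1 e2 e4 x
    obtain ⟨l, hl1, hl2⟩ := e1 x
    obtain ⟨e5, e3⟩ := e4 x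
    have e6 : l = h x E := by
      refine tendsto_nhds_unique hl1 (e5.congr fun k => ?_)
      exact P.GG_inner V _ x x
    have e7 : kap * dn hsa (ee x) E = 0 := by
      apply le_antisymm
      · rw [← hl2, e6]; exact e3
      · exact mul_nonneg kap_pos.le (dn_nonneg _ _ _)
    have e8 := (e2 x).comp tendsto_sk
    have e9 : kap * ((spm hsa (ee x)).rnDeriv volume E).toReal = 0 := e7
    rw [e9] at e8
    have e10 := (Real.continuous_sqrt.tendsto 0).comp e8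
    rw [Real.sqrt_zero] at e10
    refine e10.congr fun k => ?_
    simp only [Function.comp_apply]
    have him : ((E : ℂ) + ((1 / ((k : ℝ) + 1) : ℝ) : ℂ) * Complex.I).im = 1 / ((k : ℝ) + 1) :=
      Pool.Agent.H12R2.And.zim
    rw [BT_spm hsa (ee x) (by rw [him]; exact (hε k).ne'), ← qn_sq hsa (by rw [him]; exact hε k),
      Real.sqrt_sq (qn_nonneg _ _)]
  have hmain : ∀ N : ℕ, ∀ᵐ E ∂(volume.restrict (univ ∩ Ioc (-((N : ℝ) + 1 + 2 * ‖T‖))
      ((N : ℝ) + 1 + 2 * ‖T‖))), μ.rnDeriv volume E = 0 := by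
    intro N
    refine singular_on hsa (N := (N : ℝ) + 1 + 2 * ‖T‖) inter_subset_right
      (by linarith [(Nat.cast_nonneg N : (0 : ℝ) ≤ N)]) hε (fun k => ?_)
      tendsto_one_div_add_atTop_nhds_zero_nat (𝒟 := Dn ι) Dn_dense ?_ φ hμ
    · have h1 : 1 / ((k : ℝ) + 1) ≤ 1 := by
        rw [div_le_one (by positivity)]
        linarith [(Nat.cast_nonneg k : (0 : ℝ) ≤ k)]
      have := norm_nonneg T
      linarith [(Nat.cast_nonneg N : (0 : ℝ) ≤ N)]
    · rintro ψ ⟨s, c, rfl⟩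
      have h1 := ae_restrict_of_ae (μ := volume) (s := (univ ∩ Ioc (-((N : ℝ) + 1 + 2 * ‖T‖))
          ((N : ℝ) + 1 + 2 * ‖T‖))) hunit
      filter_upwards [h1] with E hE2
      have h3 : Tendsto (fun k : ℕ => qn T ((E : ℂ) + ((1 / ((k : ℝ) + 1) : ℝ) : ℂ) * Complex.I)
          (∑ x ∈ s, c x • ee x)) atTop (𝓝 0) := by
        have h4 : Tendsto (fun k : ℕ => ∑ x ∈ s, ‖c x‖ *
            qn T ((E : ℂ) + ((1 / ((k : ℝ) + 1) : ℝ) : ℂ) * Complex.I) (ee x)) atTop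
            (𝓝 (∑ x ∈ s, ‖c x‖ * 0)) :=
          tendsto_finsetSum _ fun x _ => (hE2 x).const_mul _
        simp only [mul_zero, Finset.sum_const_zero] at h4
        exact squeeze_zero (fun k => qn_nonneg _ _) (fun k => qn_sum _ _ _ _) h4
      have h5 := (ENNReal.continuous_ofReal.tendsto _).comp (h3.pow 2)
      simp only [ne_eq, OfNat.ofNat_ne_zero, not_false_eq_true, zero_pow, ENNReal.ofReal_zero] at h5
      refine h5.congr fun k => ?_
      simp only [Function.comp_apply]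
      have him : ((E : ℂ) + ((1 / ((k : ℝ) + 1) : ℝ) : ℂ) * Complex.I).im = 1 / ((k : ℝ) + 1) :=
        Pool.Agent.H12R2.And.zim
      rw [qn_sq hsa (by rw [him]; exact hε k)]
      rfl
  have hB' : (univ : Set ℝ) = ⋃ N : ℕ, univ ∩ Ioc (-((N : ℝ) + 1 + 2 * ‖T‖))
      ((N : ℝ) + 1 + 2 * ‖T‖) := by
    rw [← inter_iUnion]
    symm
    rw [inter_eq_left]
    intro E _
    obtain ⟨N, hN⟩ := exists_nat_gt |E|
    refine mem_iUnion.2 ⟨N, ?_⟩
    have h1 := norm_nonneg T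
    have h2 := abs_lt.1 hN
    constructor <;> linarith
  rw [hB', ae_restrict_iUnion_iff]
  exact hmain

theorem im_small (ν : Measure ℝ) [IsProbabilityMeasure ν] (hK0 : 0 ≤ P.K)
    (hK : ∀ᵐ v ∂ν, |v| ≤ P.K) (hν : ∀ r : ℝ, ν {r} ≠ 1) {a0 : ℝ} (ha0 : 0 < a0)
    {B X : ℕ → Finset ι} (hB : ∀ x, ∀ᶠ k in atTop, x ∈ B k)
    (hX : ∀ k, Doors P (B k) (X k)) {m : ℕ} (hcard : ∀ k, (X k).card ≤ m)
    (ha : ∀ k, ∀ x ∈ X k, a0 ≤ |P.a x|) (hfar : ∀ x, ∀ᶠ k in atTop, x ∉ X k)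
    {h : ι → ι → (ι → ℝ) × ℝ → ℂ} (hm : ∀ x y, Measurable (h x y))
    (hh : ∀ᵐ q ∂((PP ι ν).prod volume), ∀ x y,
      Tendsto (fun k => P.GG q.1 (zk k q.2) x y) atTop (𝓝 (h x y q)))
    (o : ι) {M : ℝ} (hM : 0 ≤ M) {ε : ℝ} (hε : 0 < ε) :
    LL ι ν M {q | ε < (h o o q).im} = 0 := by
  suffices hsuff : ∀ η : ℝ≥0, 0 < η → LL ι ν M {q | ε < (h o o q).im} ≤ η by
    have h1 : LL ι ν M {q | ε < (h o o q).im} ≤ 0 := by
      apply ENNReal.le_of_forall_pos_le_add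
      intro η hη _
      rw [zero_add]
      exact hsuff η hη
    exact nonpos_iff_eq_zero.1 h1
  intro η hη
  have hηe : (0 : ℝ≥0∞) < η := by exact_mod_cast hη
  set η1 : ℝ≥0∞ := (η : ℝ≥0∞) / 2 / ((m : ℝ≥0∞) + 1) with hη1
  have hη1pos : 0 < η1 := ENNReal.div_pos (ENNReal.half_pos hηe.ne').ne' (by simp)
  set R : ℝ := ‖P.T‖ + 1 with hR
  obtain ⟨C', hC'0, hC'⟩ : ∃ C' : ℝ, 0 < C' ∧ ENNReal.ofReal (4 * tail R M C') ≤ η1 := by
    have h1 : Tendsto (fun C => ENNReal.ofReal (4 * tail R M C)) atTop (𝓝 0) := by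
      have := (ENNReal.continuous_ofReal.tendsto _).comp ((tail_tendsto R M).const_mul 4)
      rw [mul_zero, ENNReal.ofReal_zero] at this
      exact this
    obtain ⟨C', h2, h3⟩ := ((ENNReal.tendsto_nhds_zero.1 h1 η1 hη1pos).and
      (eventually_gt_atTop 0)).exists
    exact ⟨C', h3, h2⟩
  set D : ℝ := C' + 1 with hD
  have hD0 : 0 < D := by linarith
  have hT := norm_nonneg P.T
  set δ : ℝ := ε / (((m : ℝ) + 1) * D) with hδ
  have hδ0 : 0 < δ := by positivity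
  have hdec := decay_LL P ν hK0 hK hν ha0 hm hh o hM hδ0 hη1pos
  rw [eventually_cofinite] at hdec
  have hav : ∀ᶠ k in atTop, ∀ x ∈ X k, x ∉
      {x | ¬ (a0 ≤ |P.a x| → LL ι ν M {q | δ ≤ ‖h o x q‖} ≤ η1)} := by
    have h1 : ∀ᶠ k in atTop, ∀ x ∈ {x | ¬ (a0 ≤ |P.a x| → LL ι ν M {q | δ ≤ ‖h o x q‖} ≤ η1)},
        x ∉ X k := by
      rw [eventually_all_finite hdec]
      exact fun x _ => hfar x
    filter_upwards [h1] with k hk x hx hx'
    exact hk x hx' hx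
  obtain ⟨k, hk1, hk2⟩ := (hav.and (hB o)).exists
  have hac : LL ι ν M ≪ (PP ι ν).prod volume := by
    unfold LL
    exact Measure.AbsolutelyContinuous.rfl.prod
      (Measure.absolutelyContinuous_of_le Measure.restrict_le_self)
  have hh' := hac.ae_le hh
  choose g hgm hg using fun x : ι => P.exists_limV ν (ow P (B k) x) (ee o)
  have hg' : ∀ᵐ q ∂(LL ι ν M), ∀ x : ι,
      Tendsto (fun j => inner ℂ (ow P (B k) x) (Rz (P.H q.1) (zk j q.2) (ee o))) atTop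
        (𝓝 (g x q)) := by
    rw [ae_all_iff]
    exact fun x => hac.ae_le (hg x)
  have hsub : ({q | ε < (h o o q).im} : Set ((ι → ℝ) × ℝ)) ≤ᵐ[LL ι ν M]
      (⋃ x ∈ X k, ({q | δ ≤ ‖h o x q‖} ∪ {q | D < ‖g x q‖}) : Set _) := by
    filter_upwards [hh', hg'] with q hq hgq hlt
    have hlt' : ε < (h o o q).im := hlt
    by_contra hcon
    have hcon' : ∀ x ∈ X k, ‖h o x q‖ < δ ∧ ‖g x q‖ ≤ D := by
      intro x hx
      by_contra h2
      apply hcon
      change q ∈ ⋃ x ∈ X k, ({q | δ ≤ ‖h o x q‖} ∪ {q | D < ‖g x q‖})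
      rw [mem_iUnion₂]
      refine ⟨x, hx, ?_⟩
      by_cases h3 : δ ≤ ‖h o x q‖
      · exact Or.inl h3
      · right
        rw [not_le] at h3
        by_contra h4
        exact h2 ⟨h3, not_lt.1 h4⟩
    have hfl := flux_lim P (h := fun x y => h x y q) (fun x y => hq x y) (hX k) hk2
      (g := fun x => g x q) (fun x => hgq x)
    have hsum : ∑ x ∈ X k, ‖h o x q‖ * ‖g x q‖ ≤ m * (δ * D) := by
      calc ∑ x ∈ X k, ‖h o x q‖ * ‖g x q‖ ≤ ∑ x ∈ X k, δ * D := by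
            refine Finset.sum_le_sum fun x hx => ?_
            exact mul_le_mul (hcon' x hx).1.le (hcon' x hx).2 (norm_nonneg _) hδ0.le
        _ = ((X k).card : ℝ) * (δ * D) := by rw [Finset.sum_const, nsmul_eq_mul]
        _ ≤ m * (δ * D) := by
            have : ((X k).card : ℝ) ≤ m := by exact_mod_cast hcard k
            exact mul_le_mul_of_nonneg_right this (by positivity)
    have h6 : (m : ℝ) * (δ * D) ≤ ((m : ℝ) + 1) * (δ * D) := by
      gcongr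
      linarith
    have h7 : ((m : ℝ) + 1) * (δ * D) = ε := by
      rw [hδ]
      field_simp
    have h5 : (h o o q).im ≤ ∑ x ∈ X k, ‖h o x q‖ * ‖g x q‖ := hfl
    linarith
  refine (measure_mono_ae hsub).trans ?_
  have hterm : ∀ x ∈ X k, LL ι ν M ({q | δ ≤ ‖h o x q‖} ∪ {q | D < ‖g x q‖}) ≤
      η1 + η1 := by
    intro x hx
    refine (measure_union_le _ _).trans (add_le_add ?_ ?_)
    · have h1 := hk1 x hx
      simp only [Set.mem_ofPred_eq, not_not] at h1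
      exact h1 (ha k x hx)
    · have hR' : ‖ow P (B k) x‖ + ‖(ee o : L2 ι)‖ ≤ R := by
        rw [norm_ee, hR]
        linarith [norm_ow P (B k) x]
      refine (lim_tail P ν hM hC'0 hR' ?_).trans hC'
      filter_upwards [hg'] with q hq
      exact hq x
  calc LL ι ν M (⋃ x ∈ X k, ({q | δ ≤ ‖h o x q‖} ∪ {q | D < ‖g x q‖}))
      ≤ ∑ x ∈ X k, LL ι ν M ({q | δ ≤ ‖h o x q‖} ∪ {q | D < ‖g x q‖}) :=
        measure_biUnion_finset_le _ _
    _ ≤ (X k).card • (η1 + η1) := Finset.sum_le_card_nsmul _ _ _ hterm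
    _ = ((X k).card : ℝ≥0∞) * (η1 + η1) := nsmul_eq_mul _ _
    _ ≤ ((m : ℝ≥0∞) + 1) * (η1 + η1) := by
        gcongr
        have h1 : ((X k).card : ℝ≥0∞) ≤ m := by exact_mod_cast hcard k
        exact h1.trans le_self_add
    _ = (η : ℝ≥0∞) := by
        have h1 : ((m : ℝ≥0∞) + 1) * η1 = (η : ℝ≥0∞) / 2 := by
          rw [hη1]
          exact ENNReal.mul_div_cancel (by simp) (by simp)
        rw [mul_add, h1, ENNReal.add_halves]

theorem main (ν : Measure ℝ) [IsProbabilityMeasure ν] (hK0 : 0 ≤ P.K)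
    (hK : ∀ᵐ v ∂ν, |v| ≤ P.K) (hν : ∀ r : ℝ, ν {r} ≠ 1) {a0 : ℝ} (ha0 : 0 < a0)
    {B X : ℕ → Finset ι} (hB : ∀ x, ∀ᶠ k in atTop, x ∈ B k)
    (hX : ∀ k, Doors P (B k) (X k)) {m : ℕ} (hcard : ∀ k, (X k).card ≤ m)
    (ha : ∀ k, ∀ x ∈ X k, a0 ≤ |P.a x|) (hfar : ∀ x, ∀ᶠ k in atTop, x ∉ X k) :
    ∀ᵐ V ∂(PP ι ν), Sing (P.H V) := by
  obtain ⟨h, hm, hh⟩ := P.exists_lim ν
  have hall : ∀ o : ι, ∀ᵐ q ∂((PP ι ν).prod volume), (h o o q).im ≤ 0 := by
    intro o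
    rw [ae_iff]
    have hset : {q : (ι → ℝ) × ℝ | ¬ (h o o q).im ≤ 0} ⊆ ⋃ n : ℕ, ⋃ N : ℕ,
        ({q | 1 / ((n : ℝ) + 1) < (h o o q).im} ∩ (univ ×ˢ Icc (-(N : ℝ)) N)) := by
      intro q hq
      have hq' : 0 < (h o o q).im := not_le.1 hq
      obtain ⟨n, hn⟩ := exists_nat_one_div_lt hq'
      obtain ⟨N, hN⟩ := exists_nat_gt |q.2|
      rw [mem_iUnion]
      refine ⟨n, ?_⟩
      rw [mem_iUnion]
      exact ⟨N, hn, mem_univ _, (abs_lt.1 hN).1.le, (abs_lt.1 hN).2.le⟩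
    refine measure_mono_null hset ?_
    rw [measure_iUnion_null_iff]
    intro n
    rw [measure_iUnion_null_iff]
    intro N
    have h1 := im_small P ν hK0 hK hν ha0 hB hX hcard ha hfar hm hh o (Nat.cast_nonneg N)
      (ε := 1 / ((n : ℝ) + 1)) (by positivity)
    have hS : MeasurableSet {q : (ι → ℝ) × ℝ | 1 / ((n : ℝ) + 1) < (h o o q).im} :=
      measurableSet_lt measurable_const (Complex.measurable_im.comp (hm o o))
    have h2 : LL ι ν N = ((PP ι ν).prod volume).restrict (univ ×ˢ Icc (-(N : ℝ)) N) := by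
      unfold LL
      rw [← Measure.prod_restrict, Measure.restrict_univ]
    rw [h2, Measure.restrict_apply hS] at h1
    exact h1
  have hall' : ∀ᵐ q ∂((PP ι ν).prod volume), ∀ o, (h o o q).im ≤ 0 := by
    rw [ae_all_iff]
    exact hall
  have h3 := Measure.ae_ae_of_ae_prod (hh.and hall')
  filter_upwards [h3] with V hV
  refine no_ac P (h := fun x E => h x x (V, E)) ?_
  filter_upwards [hV] with E hE x
  exact ⟨hE.1 x x, hE.2 x⟩

end Pool.Agent.Q233.BN
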