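import Pool.Agent.TH980.IM.Fc
import Pool.Agent.TH980.IM.Prob
import Pool.Agent.TH980.IM.Lat
import Pool.Agent.H4R2.AE.Exist

set_option autoImplicit false

/-! A real symmetric bounded operator on `ℓ²(ι)` plus a random diagonal: the Green function. -/

open MeasureTheory Filter Topology Set
open scoped ENNReal NNReal InnerProductSpace
open Pool.Agent.H12R2.And (Rz isUnit_sub sub_Rz im_inner norm_Rz_le diff_inner diff_Rz)
open Pool.Agent.TH980.IM.PR
open Pool.Agent.TH980.IM (cl cl_abs cl_eq cl_cont Rz_unique zk zk_im_pos continuous_zk boundary_spm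
  meas_gen spm BT_spm)

namespace Pool.Agent.Q233.BN

/-- the Hilbert space -/
abbrev L2 (ι : Type) : Type := lp (fun _ : ι => ℂ) 2

variable {ι : Type} [DecidableEq ι]

/-- unit vectors -/
noncomputable def ee (x : ι) : L2 ι := lp.single 2 x (1 : ℂ)

theorem ee_apply (x y : ι) : (ee x : L2 ι) y = if y = x then 1 else 0 := by
  unfold ee
  rw [lp.single_apply]
  by_cases h : y = x
  · subst h; simp
  · rw [Pi.single_eq_of_ne h, if_neg h]

theorem inner_ee (x : ι) (w : L2 ι) : inner ℂ (ee x) w = w x := by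
  unfold ee
  rw [lp.inner_single_left]
  simp

theorem inner_ee' (x : ι) (w : L2 ι) : inner ℂ w (ee x) = (starRingEnd ℂ) (w x) := by
  rw [← inner_conj_symm, inner_ee]

theorem norm_ee (x : ι) : ‖(ee x : L2 ι)‖ = 1 := by
  have h := inner_self_eq_norm_sq_to_K (𝕜 := ℂ) (ee x : L2 ι)
  rw [inner_ee, ee_apply, if_pos rfl] at h
  have h2 : ‖(ee x : L2 ι)‖ ^ 2 = 1 := by
    apply Complex.ofReal_injective
    rw [Complex.ofReal_pow, Complex.ofReal_one]
    exact h.symm
  nlinarith [norm_nonneg (ee x : L2 ι)]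

/-- a self-adjoint bounded operator with real matrix -/
structure RealSA (T : L2 ι →L[ℂ] L2 ι) : Prop where
  sa : IsSelfAdjoint T
  re : ∀ x y, ((T (ee x)) y).im = 0

theorem apply_tsum {T : L2 ι →L[ℂ] L2 ι} (hT : RealSA T) (u : L2 ι) (x : ι) :
    (T u) x = ∑' y, (T (ee x)) y * u y := by
  have h0 : (T u) x = inner ℂ (T (ee x)) u := by
    rw [← inner_ee x (T u)]
    exact (hT.sa.isSymmetric (ee x) u).symm
  rw [h0, lp.inner_eq_tsum]
  refine tsum_congr fun y => ?_
  rw [RCLike.inner_apply]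
  have h : (starRingEnd ℂ) ((T (ee x)) y) = (T (ee x)) y := by
    rw [Complex.conj_eq_iff_im]
    exact hT.re x y
  change u y * (starRingEnd ℂ) ((T (ee x)) y) = _
  rw [h, mul_comm]

theorem star_comm {T : L2 ι →L[ℂ] L2 ι} (hT : RealSA T) (u : L2 ι) : T (star u) = star (T u) := by
  ext x
  rw [apply_tsum hT, lp.star_apply, apply_tsum hT]
  change _ = (starRingEnd ℂ) _
  rw [Complex.conj_tsum]
  refine tsum_congr fun y => ?_
  have h : (starRingEnd ℂ) ((T (ee x)) y) = (T (ee x)) y := by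
    rw [Complex.conj_eq_iff_im]
    exact hT.re x y
  rw [map_mul, h]
  rfl

theorem symm_entry {T : L2 ι →L[ℂ] L2 ι} (hT : RealSA T) (x y : ι) :
    (T (ee x)) y = (T (ee y)) x := by
  have h0 : (T (ee x)) y = inner ℂ (T (ee y)) (ee x) := by
    rw [← inner_ee y (T (ee x))]
    exact (hT.sa.isSymmetric (ee y) (ee x)).symm
  rw [h0, inner_ee', Complex.conj_eq_iff_im]
  exact hT.re y x

/-- symmetry of the resolvent -/
theorem Rz_symm {T : L2 ι →L[ℂ] L2 ι} (hT : RealSA T) {z : ℂ} (hz : z.im ≠ 0) (x y : ι) :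
    (Rz T z (ee y)) x = (Rz T z (ee x)) y := by
  have hsa := hT.sa
  have hz' : ((starRingEnd ℂ) z).im ≠ 0 := by simpa using hz
  have h1 : star (Rz T z (ee y)) = Rz T ((starRingEnd ℂ) z) (ee y) := by
    apply Rz_unique hsa hz'
    have h2 := sub_Rz hsa hz (ee y)
    have h3 := congrArg star h2
    rw [star_sub, ← star_comm hT, star_smul] at h3
    have h4 : star (ee y : L2 ι) = ee y := by
      ext j
      rw [lp.star_apply, ee_apply]
      split_ifs <;> simp
    rw [h4] at h3
    exact h3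
  have h2 : inner ℂ (Rz T ((starRingEnd ℂ) z) (ee y)) (ee x) =
      inner ℂ (ee y) (Rz T z (ee x)) := by
    set s := Rz T ((starRingEnd ℂ) z) (ee y) with hs
    set w := Rz T z (ee x) with hw
    have e1 : (ee x : L2 ι) = T w - z • w := (sub_Rz hsa hz (ee x)).symm
    have e2 : (ee y : L2 ι) = T s - (starRingEnd ℂ) z • s := (sub_Rz hsa hz' (ee y)).symm
    rw [e2]
    conv_lhs => rw [e1]
    rw [inner_sub_right, inner_sub_left, inner_smul_right, inner_smul_left, Complex.conj_conj]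
    congr 1
    exact (hsa.isSymmetric s w).symm
  rw [← inner_ee y (Rz T z (ee x)), ← h2, inner_ee', ← h1, lp.star_apply]
  exact (Complex.conj_conj _).symm

omit [DecidableEq ι] in
/-- the diagonal operator with entries `a x * cl K (V x)` -/
theorem exists_dg (a : ι → ℝ) (ha : ∀ x, |a x| ≤ 1) (K : ℝ) (V : ι → ℝ) :
    ∃ D : L2 ι →L[ℂ] L2 ι, ∀ f x, (D f) x = ((a x * cl K (V x) : ℝ) : ℂ) * f x :=
  Pool.Agent.H4R2.AE.Exist.exists_op (fun x => x) Function.injective_id
    (fun x => ((a x * cl K (V x) : ℝ) : ℂ)) |K| (abs_nonneg K) fun x => by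
      rw [Complex.norm_real, Real.norm_eq_abs, abs_mul]
      calc |a x| * |cl K (V x)| ≤ 1 * |K| :=
            mul_le_mul (ha x) (cl_abs K _) (abs_nonneg _) zero_le_one
        _ = |K| := one_mul _

/-- data: the background operator and the amplitudes -/
structure Data (ι : Type) [DecidableEq ι] where
  T : L2 ι →L[ℂ] L2 ι
  hT : RealSA T
  a : ι → ℝ
  ha : ∀ x, |a x| ≤ 1
  K : ℝ

variable (P : Data ι)

noncomputable def Data.dg (V : ι → ℝ) : L2 ι →L[ℂ] L2 ι :=
  (exists_dg P.a P.ha P.K V).choose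

theorem Data.dg_apply (V : ι → ℝ) (f : L2 ι) (x : ι) :
    (P.dg V f) x = ((P.a x * cl P.K (V x) : ℝ) : ℂ) * f x :=
  (exists_dg P.a P.ha P.K V).choose_spec f x

/-- the operator `T + a V` -/
noncomputable def Data.H (V : ι → ℝ) : L2 ι →L[ℂ] L2 ι := P.T + P.dg V

theorem Data.H_apply (V : ι → ℝ) (f : L2 ι) (x : ι) :
    (P.H V f) x = (P.T f) x + ((P.a x * cl P.K (V x) : ℝ) : ℂ) * f x := by
  change (P.T f) x + (P.dg V f) x = _
  rw [P.dg_apply]

theorem Data.H_ee (V : ι → ℝ) (x y : ι) : (P.H V (ee x)) y =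
    (P.T (ee x)) y + ((P.a y * cl P.K (V y) : ℝ) : ℂ) * if y = x then 1 else 0 := by
  rw [P.H_apply, ee_apply]

theorem Data.H_real (V : ι → ℝ) : RealSA (P.H V) := by
  have hre : ∀ x y, ((P.H V (ee x)) y).im = 0 := by
    intro x y
    rw [P.H_ee, Complex.add_im, P.hT.re x y, zero_add]
    split_ifs
    · rw [mul_one, Complex.ofReal_im]
    · simp
  refine ⟨?_, hre⟩
  rw [ContinuousLinearMap.isSelfAdjoint_iff']
  apply lp.ext_continuousLinearMap (by norm_num)
  intro i
  ext
  rename_i j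
  simp only [ContinuousLinearMap.comp_apply, lp.singleContinuousLinearMap_apply]
  change (ContinuousLinearMap.adjoint (P.H V) (ee i)) j = (P.H V (ee i)) j
  rw [← inner_ee j, ContinuousLinearMap.adjoint_inner_right, inner_ee']
  rw [(Complex.conj_eq_iff_im).2 (hre j i), P.H_ee, P.H_ee, symm_entry P.hT j i]
  by_cases h : i = j
  · subst h; rfl
  · rw [if_neg h, if_neg (fun h' => h h'.symm)]
    simp

/-- the Green function -/
noncomputable def Data.GG (V : ι → ℝ) (z : ℂ) (x y : ι) : ℂ := (Rz (P.H V) z (ee y)) x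

theorem Data.GG_inner (V : ι → ℝ) (z : ℂ) (x y : ι) :
    P.GG V z x y = inner ℂ (ee x) (Rz (P.H V) z (ee y)) := by
  rw [inner_ee]; rfl

theorem Data.GG_symm (V : ι → ℝ) {z : ℂ} (hz : z.im ≠ 0) (x y : ι) :
    P.GG V z x y = P.GG V z y x := Rz_symm (P.H_real V) hz x y

/-- resampling one site -/
theorem Data.rank_one (V : ι → ℝ) (o x : ι) (v : ℝ) {z : ℂ} (hz : z.im ≠ 0) :
    (P.GG V z o o - P.GG (up x (V, v)) z o o) *
      (1 + ((P.a x * (cl P.K v - cl P.K (V x)) : ℝ) : ℂ) * P.GG V z x x) =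
      ((P.a x * (cl P.K v - cl P.K (V x)) : ℝ) : ℂ) * P.GG V z o x ^ 2 := by
  set κ : ℂ := ((P.a x * (cl P.K v - cl P.K (V x)) : ℝ) : ℂ) with hκ
  set V' := up x (V, v) with hV'
  have hH : ∀ f : L2 ι, P.H V' f = P.H V f + (κ * f x) • ee x := by
    intro f
    ext j
    change (P.H V' f) j = (P.H V f) j + (κ * f x) * (ee x : L2 ι) j
    rw [P.H_apply, P.H_apply, ee_apply]
    by_cases hj : j = x
    · subst hj
      rw [if_pos rfl, hV']
      simp only [up, Function.update_self]
      rw [hκ]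
      push_cast
      ring
    · rw [if_neg hj, hV']
      simp only [up, Function.update_of_ne hj]
      ring
  have hsa := (P.H_real V).sa
  have hsa' := (P.H_real V').sa
  have key : ∀ y j : ι, P.GG V' z j y = P.GG V z j y - κ * P.GG V' z x y * P.GG V z j x := by
    intro y j
    set w' := Rz (P.H V') z (ee y) with hw'
    have h1 := sub_Rz hsa' hz (ee y)
    rw [← hw', hH w'] at h1
    have h2 : w' + (κ * w' x) • Rz (P.H V) z (ee x) = Rz (P.H V) z (ee y) := by
      apply Rz_unique hsa hz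
      rw [map_add, map_smul, smul_add]
      have h3 := sub_Rz hsa hz (ee x)
      calc P.H V w' + (κ * w' x) • P.H V (Rz (P.H V) z (ee x)) -
            (z • w' + z • (κ * w' x) • Rz (P.H V) z (ee x))
          = (P.H V w' - z • w') + (κ * w' x) •
            (P.H V (Rz (P.H V) z (ee x)) - z • Rz (P.H V) z (ee x)) := by
            rw [smul_sub, smul_comm z]
            abel
        _ = (P.H V w' - z • w') + (κ * w' x) • ee x := by rw [h3]
        _ = ee y := by
            rw [← h1]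
            abel
    have h4 := congrArg (fun f : L2 ι => f j) h2
    change w' j + (κ * w' x) * (Rz (P.H V) z (ee x)) j = (Rz (P.H V) z (ee y)) j at h4
    change w' j = (Rz (P.H V) z (ee y)) j - κ * w' x * (Rz (P.H V) z (ee x)) j
    rw [← h4]
    ring
  have k1 := key o o
  have k2 := key o x
  have hs := P.GG_symm V hz x o
  rw [k1]
  have e : P.GG V z o o - (P.GG V z o o - κ * P.GG V' z x o * P.GG V z o x) =
      κ * P.GG V z o x * P.GG V' z x o := by ring
  rw [e]
  have e2 : P.GG V' z x o * (1 + κ * P.GG V z x x) = P.GG V z x o := by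
    linear_combination k2
  calc κ * P.GG V z o x * P.GG V' z x o * (1 + κ * P.GG V z x x) =
      κ * P.GG V z o x * (P.GG V' z x o * (1 + κ * P.GG V z x x)) := by ring
    _ = _ := by rw [e2, hs]; ring

/-- strong continuity of the operators in the potential -/
theorem Data.H_tendsto {V : ι → ℝ} {W : ℕ → ι → ℝ} (hW : Tendsto W atTop (𝓝 V))
    (w : L2 ι) : Tendsto (fun n => ‖P.H (W n) w - P.H V w‖) atTop (𝓝 0) := by
  have hc : ∀ n x, (P.H (W n) w - P.H V w) x =
      ((P.a x * (cl P.K (W n x) - cl P.K (V x)) : ℝ) : ℂ) * w x := by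
    intro n x
    change (P.H (W n) w) x - (P.H V w) x = _
    rw [P.H_apply, P.H_apply]
    push_cast
    ring
  have hsum : Summable fun x => ‖w x‖ ^ 2 := by
    have := (lp.memℓp w).summable (by norm_num : 0 < (2 : ℝ≥0∞).toReal)
    simpa using this
  have hn : ∀ n, ‖P.H (W n) w - P.H V w‖ ^ 2 =
      ∑' x, (P.a x * (cl P.K (W n x) - cl P.K (V x))) ^ 2 * ‖w x‖ ^ 2 := by
    intro n
    have h1 := lp.norm_rpow_eq_tsum (by norm_num : 0 < (2 : ℝ≥0∞).toReal)
      (P.H (W n) w - P.H V w)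
    simp only [ENNReal.toReal_ofNat, Real.rpow_two] at h1
    rw [h1]
    refine tsum_congr fun x => ?_
    rw [hc, norm_mul, Complex.norm_real, Real.norm_eq_abs, mul_pow, sq_abs]
  have h2 : Tendsto (fun n => ∑' x, (P.a x * (cl P.K (W n x) - cl P.K (V x))) ^ 2 * ‖w x‖ ^ 2)
      atTop (𝓝 (∑' x : ι, 0)) := by
    apply tendsto_tsum_of_dominated_convergence (hsum.mul_left ((2 * |P.K|) ^ 2))
    · intro x
      have h3 : Tendsto (fun n => W n x) atTop (𝓝 (V x)) := ((continuous_apply x).tendsto V).comp hW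
      have h4 := ((cl_cont P.K).tendsto (V x)).comp h3
      have h5 := ((((h4.sub_const (cl P.K (V x))).const_mul (P.a x))).pow 2).mul_const (‖w x‖ ^ 2)
      simp only [sub_self, mul_zero, ne_eq, OfNat.ofNat_ne_zero, not_false_eq_true, zero_pow,
        zero_mul] at h5
      exact h5
    · apply Eventually.of_forall
      intro n x
      rw [Real.norm_eq_abs, abs_of_nonneg (by positivity)]
      apply mul_le_mul_of_nonneg_right _ (by positivity)
      rw [← sq_abs]
      apply pow_le_pow_left₀ (abs_nonneg _)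
      rw [abs_mul]
      have h6 := cl_abs P.K (W n x)
      have h7 := cl_abs P.K (V x)
      have h8 := (abs_sub (cl P.K (W n x)) (cl P.K (V x)))
      calc |P.a x| * |cl P.K (W n x) - cl P.K (V x)| ≤ 1 * (2 * |P.K|) :=
            mul_le_mul (P.ha x) (by linarith) (abs_nonneg _) zero_le_one
        _ = 2 * |P.K| := one_mul _
  rw [tsum_zero] at h2
  simp_rw [← hn] at h2
  have h6 := (Real.continuous_sqrt.tendsto 0).comp h2
  rw [Real.sqrt_zero] at h6
  refine h6.congr fun n => ?_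
  simp only [Function.comp_apply]
  exact Real.sqrt_sq (norm_nonneg _)

variable [Countable ι]

theorem Data.Rz_cont {z : ℂ} (hz : 0 < z.im) (f : L2 ι) :
    Continuous (fun V : ι → ℝ => Rz (P.H V) z f) := by
  rw [continuous_iff_seqContinuous]
  intro W V hW
  set w := Rz (P.H V) z f with hw
  have h1 := P.H_tendsto hW w
  rw [tendsto_iff_norm_sub_tendsto_zero]
  have h2 := h1.div_const z.im
  rw [zero_div] at h2
  refine squeeze_zero (fun _ => norm_nonneg _) (fun n => ?_) h2
  simp only [Function.comp_apply]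
  have h3 : w = Rz (P.H (W n)) z (f + (P.H (W n) w - P.H V w)) := by
    apply Rz_unique (P.H_real _).sa hz.ne'
    have h4 := sub_Rz (P.H_real V).sa hz.ne' f
    rw [← hw] at h4
    rw [← h4]
    abel
  have h5 : Rz (P.H (W n)) z f - w = - Rz (P.H (W n)) z (P.H (W n) w - P.H V w) := by
    conv_lhs => rw [h3]
    rw [map_add]
    abel
  rw [h5, norm_neg]
  exact norm_Rz_le (P.H_real _).sa hz _

theorem Data.VV_meas_V {z : ℂ} (hz : 0 < z.im) (u v : L2 ι) :
    Measurable (fun V : ι → ℝ => inner ℂ u (Rz (P.H V) z v)) :=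
  ((innerSL ℂ u).continuous.comp (P.Rz_cont hz v)).measurable

omit [Countable ι] in
theorem Data.VV_cont_E (V : ι → ℝ) (k : ℕ) (u v : L2 ι) :
    Continuous (fun E : ℝ => inner ℂ u (Rz (P.H V) (zk k E) v)) := by
  rw [continuous_iff_continuousAt]
  intro E
  have h2 : ContinuousAt (fun z => Rz (P.H V) z v) (zk k E) :=
    ((diff_Rz (P.H_real V).sa (zk_im_pos k E).ne').clm_apply
      (differentiableAt_const _)).continuousAt
  have h3 : ContinuousAt (fun z => inner ℂ u (Rz (P.H V) z v)) (zk k E) :=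
    (innerSL ℂ u).continuous.continuousAt.comp h2
  exact ContinuousAt.comp (f := fun E : ℝ => zk k E) h3 (continuous_zk k).continuousAt

theorem Data.VV_meas (k : ℕ) (u v : L2 ι) :
    Measurable (fun q : (ι → ℝ) × ℝ => inner ℂ u (Rz (P.H q.1) (zk k q.2) v)) :=
  meas_gen (F := fun V E => inner ℂ u (Rz (P.H V) (zk k E) v))
    (fun V => P.VV_cont_E V k u v) (fun E => P.VV_meas_V (zk_im_pos k E) u v)

omit [DecidableEq ι] [Countable ι] in
/-- polarization -/
theorem polar (A : L2 ι →L[ℂ] L2 ι) (u v : L2 ι) :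
    inner ℂ u (A v) = (1 / 4 : ℂ) * ((inner ℂ (u + v) (A (u + v)) - inner ℂ (u - v) (A (u - v))) -
      Complex.I * (inner ℂ (u + Complex.I • v) (A (u + Complex.I • v)) -
        inner ℂ (u - Complex.I • v) (A (u - Complex.I • v)))) := by
  simp only [map_add, map_sub, map_smul, inner_add_left, inner_sub_left, inner_add_right,
    inner_sub_right, inner_smul_left, inner_smul_right, Complex.conj_I]
  linear_combination (1 / 2 * inner ℂ u (A v) - 1 / 2 * inner ℂ v (A u)) * Complex.I_mul_I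

omit [Countable ι] in
/-- boundary values of the resolvent -/
theorem Data.VV_boundary (V : ι → ℝ) (u v : L2 ι) :
    ∀ᵐ E : ℝ, ∃ l : ℂ, Tendsto (fun k => inner ℂ u (Rz (P.H V) (zk k E) v)) atTop (𝓝 l) := by
  have hsa := (P.H_real V).sa
  filter_upwards [boundary_spm hsa (u + v), boundary_spm hsa (u - v),
    boundary_spm hsa (u + Complex.I • v), boundary_spm hsa (u - Complex.I • v)]
    with E ⟨l1, h1, _⟩ ⟨l2, h2, _⟩ ⟨l3, h3, _⟩ ⟨l4, h4, _⟩
  refine ⟨(1 / 4 : ℂ) * ((l1 - l2) - Complex.I * (l3 - l4)),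
    (((h1.sub h2).sub ((h3.sub h4).const_mul Complex.I)).const_mul (1 / 4 : ℂ)).congr fun k => ?_⟩
  exact (polar (Rz (P.H V) (zk k E)) u v).symm

theorem Data.exists_limV (ν : Measure ℝ) [IsProbabilityMeasure ν] (u v : L2 ι) :
    ∃ f : (ι → ℝ) × ℝ → ℂ, Measurable f ∧ ∀ᵐ q ∂((PP ι ν).prod volume),
        Tendsto (fun k => inner ℂ u (Rz (P.H q.1) (zk k q.2) v)) atTop (𝓝 (f q)) := by
  apply measurable_limit_of_tendsto_metrizable_ae
  · intro k
    exact (P.VV_meas k u v).aemeasurable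
  · have hm : MeasurableSet {q : (ι → ℝ) × ℝ |
        ∃ l : ℂ, Tendsto (fun k => inner ℂ u (Rz (P.H q.1) (zk k q.2) v)) atTop (𝓝 l)} :=
      measurableSet_exists_tendsto fun k => P.VV_meas k u v
    have h1 : ∀ᵐ V ∂(PP ι ν), ∀ᵐ E : ℝ, (V, E) ∈ {q : (ι → ℝ) × ℝ |
        ∃ l : ℂ, Tendsto (fun k => inner ℂ u (Rz (P.H q.1) (zk k q.2) v)) atTop (𝓝 l)} :=
      ae_of_all _ fun V => P.VV_boundary V u v
    exact (Measure.ae_prod_mem_iff_ae_ae_mem hm).2 h1

theorem Data.exists_lim (ν : Measure ℝ) [IsProbabilityMeasure ν] :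
    ∃ h : ι → ι → (ι → ℝ) × ℝ → ℂ, (∀ x y, Measurable (h x y)) ∧
      ∀ᵐ q ∂((PP ι ν).prod volume), ∀ x y,
        Tendsto (fun k => P.GG q.1 (zk k q.2) x y) atTop (𝓝 (h x y q)) := by
  choose h h1 h2 using fun x y : ι => P.exists_limV ν (ee x) (ee y)
  refine ⟨h, h1, ?_⟩
  rw [ae_all_iff]; intro x
  rw [ae_all_iff]; intro y
  filter_upwards [h2 x y] with q hq
  refine hq.congr fun k => ?_
  exact (P.GG_inner _ _ x y).symm

end Pool.Agent.Q233.BN
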