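import Pool.Agent.Q233.BN.Op

set_option autoImplicit false

/-! Uniform tightness of the boundary values of resolvent matrix entries in the energy. -/

open MeasureTheory Filter Topology Set Metric
open scoped ENNReal NNReal InnerProductSpace Real
open Pool.Agent.H12R2.And (Rz isUnit_sub sub_Rz im_inner norm_Rz_le diff_inner diff_Rz)
open Pool.Agent.TH980.IM.PR
open Pool.Agent.TH980.IM (cl cl_abs cl_eq cl_cont Rz_unique zk zs zk_im_pos continuous_zk
  boundary_spm meas_gen spm BT_spm tendsto_zk psi sq sq_sq norm_sq_sq avg gdiff psi_eq circleMap_eq)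

namespace Pool.Agent.Q233.BN

section

variable {F : ℂ → ℂ} (hd : ∀ z : ℂ, 0 < z.im → DifferentiableAt ℂ F z)
  (him : ∀ z : ℂ, 0 < z.im → 0 ≤ (F z).im)

theorem psi_zero : psi 0 = Complex.I := by simp [psi]

include hd him in
theorem zk_repr {k : ℕ} (hk : 1 ≤ k) : ∃ g : ℝ → ℝ, Continuous g ∧ (∀ θ, 0 ≤ g θ) ∧
    (∀ E, ‖sq (F (zk k E) + Complex.I)‖ = g (π + 2 * Real.arctan E)) ∧
    ∫ θ in (0 : ℝ)..2 * π, g θ ≤ 2 * π * (2 * ‖sq (F Complex.I + Complex.I)‖) := by
  set s : ℝ := 1 / ((k : ℝ) + 1) with hs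
  have hk' : (1 : ℝ) ≤ k := by exact_mod_cast hk
  have hs0 : 0 < s := by positivity
  have hs1 : s < 1 := by
    rw [hs, div_lt_one (by positivity)]
    linarith
  set r : ℝ := (1 - s) / (1 + s) with hr
  have hr0 : 0 < r := div_pos (by linarith) (by linarith)
  have hr1 : r < 1 := by
    rw [hr, div_lt_one (by linarith)]
    linarith
  have hmem : ∀ θ : ℝ, circleMap 0 r θ ∈ ball (0 : ℂ) 1 := by
    intro θ
    exact closedBall_subset_ball hr1 (circleMap_mem_closedBall _ hr0.le _)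
  have hcont : Continuous (fun θ : ℝ => sq (F (psi (circleMap 0 r θ)) + Complex.I)) :=
    (gdiff hd him).continuousOn.comp_continuous (continuous_circleMap 0 r) hmem
  refine ⟨fun θ => ‖sq (F (psi (circleMap 0 r θ)) + Complex.I)‖, hcont.norm,
    fun θ => norm_nonneg _, fun E => ?_, ?_⟩
  · simp only
    rw [circleMap_eq, hr, psi_eq hs0]
    rfl
  · have h := avg hd him hr0 hr1
    rw [psi_zero] at h
    exact h

include hd him in
theorem int_zk {M : ℝ} (hM : 0 ≤ M) {k : ℕ} (hk : 1 ≤ k) :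
    IntegrableOn (fun E => ‖sq (F (zk k E) + Complex.I)‖) (Icc (-M) M) ∧
    ∫ E in Icc (-M) M, ‖sq (F (zk k E) + Complex.I)‖ ≤
      (1 + M ^ 2) * (2 * π * ‖sq (F Complex.I + Complex.I)‖) := by
  obtain ⟨g, hg, hg0, hgE, hgi⟩ := zk_repr hd him hk
  have hphi : Continuous fun E : ℝ => π + 2 * Real.arctan E := by fun_prop
  have hc : Continuous fun E => ‖sq (F (zk k E) + Complex.I)‖ := by
    simp_rw [hgE]
    exact hg.comp hphi
  refine ⟨hc.continuousOn.integrableOn_compact isCompact_Icc, ?_⟩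
  rw [integral_Icc_eq_integral_Ioc, ← intervalIntegral.integral_of_le (by linarith)]
  simp_rw [hgE]
  have hden : ∀ E : ℝ, (0 : ℝ) < 1 + E ^ 2 := fun E => by positivity
  have hder : ∀ E ∈ uIcc (-M) M, HasDerivAt (fun E : ℝ => π + 2 * Real.arctan E)
      (2 * (1 / (1 + E ^ 2))) E := fun E _ =>
    ((Real.hasDerivAt_arctan E).const_mul 2).const_add π
  have hcd : Continuous fun E : ℝ => 2 * (1 / (1 + E ^ 2)) :=
    continuous_const.mul (continuous_const.div (by fun_prop) fun E => (hden E).ne')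
  have hsub := intervalIntegral.integral_comp_mul_deriv (a := -M) (b := M) hder hcd.continuousOn hg
  have h1 : ∫ E in (-M)..M, g (π + 2 * Real.arctan E) ≤
      ∫ E in (-M)..M, (1 + M ^ 2) / 2 * (g (π + 2 * Real.arctan E) * (2 * (1 / (1 + E ^ 2)))) := by
    apply intervalIntegral.integral_mono_on (by linarith)
    · exact (hg.comp hphi).intervalIntegrable _ _
    · exact (continuous_const.mul ((hg.comp hphi).mul hcd)).intervalIntegrable _ _
    · intro E hE
      have h2 : E ^ 2 ≤ M ^ 2 := by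
        apply sq_le_sq'
        · exact hE.1
        · exact hE.2
      have h3 : 1 ≤ (1 + M ^ 2) / 2 * (2 * (1 / (1 + E ^ 2))) := by
        have : (1 + M ^ 2) / 2 * (2 * (1 / (1 + E ^ 2))) = (1 + M ^ 2) / (1 + E ^ 2) := by
          field_simp
        rw [this, le_div_iff₀ (hden E)]
        linarith
      calc g (π + 2 * Real.arctan E) = g (π + 2 * Real.arctan E) * 1 := (mul_one _).symm
        _ ≤ g (π + 2 * Real.arctan E) * ((1 + M ^ 2) / 2 * (2 * (1 / (1 + E ^ 2)))) :=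
            mul_le_mul_of_nonneg_left h3 (hg0 _)
        _ = _ := by ring
  refine h1.trans ?_
  rw [intervalIntegral.integral_const_mul]
  have h4 : ∫ E in (-M)..M, g (π + 2 * Real.arctan E) * (2 * (1 / (1 + E ^ 2))) ≤
      ∫ θ in (0 : ℝ)..2 * π, g θ := by
    have h5 : ∫ E in (-M)..M, g (π + 2 * Real.arctan E) * (2 * (1 / (1 + E ^ 2))) =
        ∫ θ in (π + 2 * Real.arctan (-M))..(π + 2 * Real.arctan M), g θ := hsub
    rw [h5]
    have ha1 := Real.arctan_lt_pi_div_two M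
    have ha2 := Real.neg_pi_div_two_lt_arctan (-M)
    have ha3 : Real.arctan (-M) ≤ Real.arctan M := Real.arctan_strictMono.monotone (by linarith)
    apply intervalIntegral.integral_mono_interval (by linarith) (by linarith) (by linarith)
    · exact ae_of_all _ fun θ => hg0 θ
    · exact hg.intervalIntegrable _ _
  calc (1 + M ^ 2) / 2 * ∫ E in (-M)..M, g (π + 2 * Real.arctan E) * (2 * (1 / (1 + E ^ 2)))
      ≤ (1 + M ^ 2) / 2 * (2 * π * (2 * ‖sq (F Complex.I + Complex.I)‖)) :=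
        mul_le_mul_of_nonneg_left (h4.trans hgi) (by positivity)
    _ = _ := by ring

include hd him in
theorem meas_zk {M : ℝ} (hM : 0 ≤ M) {k : ℕ} (hk : 1 ≤ k) {C : ℝ} (hC : 0 < C) :
    (volume.restrict (Icc (-M) M)) {E | C + 1 < ‖F (zk k E)‖} ≤
      ENNReal.ofReal ((1 + M ^ 2) * (2 * π * ‖sq (F Complex.I + Complex.I)‖) / √C) := by
  obtain ⟨hi, hb⟩ := int_zk hd him hM hk
  have hsC : 0 < √C := Real.sqrt_pos.2 hC
  have h1 := mul_meas_ge_le_integral_of_nonneg (μ := volume.restrict (Icc (-M) M))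
    (f := fun E => ‖sq (F (zk k E) + Complex.I)‖) (ae_of_all _ fun E => norm_nonneg _) hi (√C)
  have hsub : {E | C + 1 < ‖F (zk k E)‖} ⊆ {E | √C ≤ ‖sq (F (zk k E) + Complex.I)‖} := by
    intro E hE
    have hE' : C + 1 < ‖F (zk k E)‖ := hE
    have hne : F (zk k E) + Complex.I ≠ 0 := by
      intro h
      have h2 := congrArg Complex.im h
      have h3 := him _ (zk_im_pos k E)
      simp at h2
      linarith
    have h4 : C ≤ ‖F (zk k E) + Complex.I‖ := by
      have h5 := norm_sub_le (F (zk k E) + Complex.I) Complex.I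
      rw [add_sub_cancel_right, Complex.norm_I] at h5
      linarith
    change √C ≤ ‖sq (F (zk k E) + Complex.I)‖
    rw [Real.sqrt_le_left (norm_nonneg _), norm_sq_sq hne]
    exact h4
  have h2 : (volume.restrict (Icc (-M) M)).real {E | √C ≤ ‖sq (F (zk k E) + Complex.I)‖} ≤
      (1 + M ^ 2) * (2 * π * ‖sq (F Complex.I + Complex.I)‖) / √C := by
    rw [le_div_iff₀ hsC, mul_comm]
    exact h1.trans hb
  refine (measure_mono hsub).trans ?_
  rw [← ENNReal.ofReal_toReal (measure_ne_top (volume.restrict (Icc (-M) M)) _)]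
  exact ENNReal.ofReal_le_ofReal h2

end

/-- the tail bound -/
noncomputable def tail (R M C : ℝ) : ℝ := (1 + M ^ 2) * (2 * π * √(R ^ 2 + 1)) / √C

theorem tail_nonneg (R M C : ℝ) : 0 ≤ tail R M C := by
  unfold tail
  positivity

theorem tail_tendsto (R M : ℝ) : Tendsto (tail R M) atTop (𝓝 0) := by
  unfold tail
  exact tendsto_const_nhds.div_atTop Real.tendsto_sqrt_atTop

theorem form_tail {X : Type} [NormedAddCommGroup X] [InnerProductSpace ℂ X] [CompleteSpace X]
    {T : X →L[ℂ] X} (hT : IsSelfAdjoint T) {u : X} {R : ℝ} (hu : ‖u‖ ≤ R) {M : ℝ} (hM : 0 ≤ M)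
    {k : ℕ} (hk : 1 ≤ k) {C : ℝ} (hC : 0 < C) :
    (volume.restrict (Icc (-M) M)) {E | C + 1 < ‖inner ℂ u (Rz T (zk k E) u)‖} ≤
      ENNReal.ofReal (tail R M C) := by
  have hd : ∀ z : ℂ, 0 < z.im → DifferentiableAt ℂ (fun z => inner ℂ u (Rz T z u)) z :=
    fun z hz => diff_inner hT u hz.ne'
  have him : ∀ z : ℂ, 0 < z.im → 0 ≤ (inner ℂ u (Rz T z u)).im := by
    intro z hz
    rw [im_inner hT hz.ne']
    positivity
  refine (meas_zk (F := fun z => inner ℂ u (Rz T z u)) hd him hM hk hC).trans ?_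
  apply ENNReal.ofReal_le_ofReal
  unfold tail
  have h1 : ‖sq (inner ℂ u (Rz T Complex.I u) + Complex.I)‖ ≤ √(R ^ 2 + 1) := by
    have hI : (0 : ℝ) < Complex.I.im := by simp
    have hne : inner ℂ u (Rz T Complex.I u) + Complex.I ≠ 0 := by
      intro h
      have h2 := congrArg Complex.im h
      have h3 := him _ hI
      simp at h2
      linarith
    rw [Real.le_sqrt (norm_nonneg _) (by positivity), norm_sq_sq hne]
    have h2 := norm_Rz_le hT hI u
    simp only [Complex.I_im, div_one] at h2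
    have h3 : ‖inner ℂ u (Rz T Complex.I u)‖ ≤ R ^ 2 := by
      refine (norm_inner_le_norm _ _).trans ?_
      rw [pow_two]
      exact mul_le_mul hu (h2.trans hu) (norm_nonneg _) ((norm_nonneg u).trans hu)
    refine (norm_add_le _ _).trans ?_
    rw [Complex.norm_I]
    linarith
  have hpi := Real.pi_pos
  gcongr

variable {ι : Type} [DecidableEq ι] (P : Data ι)

theorem VV_tail (V : ι → ℝ) (u v : L2 ι) {R : ℝ} (huv : ‖u‖ + ‖v‖ ≤ R) {M : ℝ} (hM : 0 ≤ M)
    {k : ℕ} (hk : 1 ≤ k) {C : ℝ} (hC : 0 < C) :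
    (volume.restrict (Icc (-M) M)) {E | C + 1 < ‖inner ℂ u (Rz (P.H V) (zk k E) v)‖} ≤
      ENNReal.ofReal (4 * tail R M C) := by
  have hsa := (P.H_real V).sa
  have hIv : ‖Complex.I • v‖ = ‖v‖ := by rw [norm_smul, Complex.norm_I, one_mul]
  have hu1 : ‖u + v‖ ≤ R := (norm_add_le _ _).trans huv
  have hu2 : ‖u - v‖ ≤ R := (norm_sub_le _ _).trans huv
  have hu3 : ‖u + Complex.I • v‖ ≤ R := (norm_add_le _ _).trans (by rw [hIv]; exact huv)
  have hu4 : ‖u - Complex.I • v‖ ≤ R := (norm_sub_le _ _).trans (by rw [hIv]; exact huv)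
  set S : L2 ι → Set ℝ := fun w => {E | C + 1 < ‖inner ℂ w (Rz (P.H V) (zk k E) w)‖} with hS
  have hsub : {E | C + 1 < ‖inner ℂ u (Rz (P.H V) (zk k E) v)‖} ⊆
      (S (u + v) ∪ S (u - v)) ∪ (S (u + Complex.I • v) ∪ S (u - Complex.I • v)) := by
    intro E hE
    have hE' : C + 1 < ‖inner ℂ u (Rz (P.H V) (zk k E) v)‖ := hE
    by_contra h
    rw [mem_union, mem_union, mem_union, not_or, not_or, not_or] at h
    obtain ⟨⟨h1, h2⟩, h3, h4⟩ := h
    have h1' : ‖inner ℂ (u + v) (Rz (P.H V) (zk k E) (u + v))‖ ≤ C + 1 := not_lt.1 h1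
    have h2' : ‖inner ℂ (u - v) (Rz (P.H V) (zk k E) (u - v))‖ ≤ C + 1 := not_lt.1 h2
    have h3' : ‖inner ℂ (u + Complex.I • v) (Rz (P.H V) (zk k E) (u + Complex.I • v))‖ ≤ C + 1 :=
      not_lt.1 h3
    have h4' : ‖inner ℂ (u - Complex.I • v) (Rz (P.H V) (zk k E) (u - Complex.I • v))‖ ≤ C + 1 :=
      not_lt.1 h4
    rw [polar (Rz (P.H V) (zk k E)) u v, norm_mul] at hE'
    have hq : ‖(1 / 4 : ℂ)‖ = 1 / 4 := by norm_num
    rw [hq] at hE'
    have h5 := norm_sub_le (inner ℂ (u + v) (Rz (P.H V) (zk k E) (u + v)) -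
        inner ℂ (u - v) (Rz (P.H V) (zk k E) (u - v)))
      (Complex.I * (inner ℂ (u + Complex.I • v) (Rz (P.H V) (zk k E) (u + Complex.I • v)) -
        inner ℂ (u - Complex.I • v) (Rz (P.H V) (zk k E) (u - Complex.I • v))))
    rw [norm_mul, Complex.norm_I, one_mul] at h5
    have h6 := norm_sub_le (inner ℂ (u + v) (Rz (P.H V) (zk k E) (u + v)))
        (inner ℂ (u - v) (Rz (P.H V) (zk k E) (u - v)))
    have h7 := norm_sub_le
        (inner ℂ (u + Complex.I • v) (Rz (P.H V) (zk k E) (u + Complex.I • v)))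
        (inner ℂ (u - Complex.I • v) (Rz (P.H V) (zk k E) (u - Complex.I • v)))
    linarith
  have ht := tail_nonneg R M C
  refine (measure_mono hsub).trans ((measure_union_le _ _).trans ?_)
  have e : (4 : ℝ) * tail R M C = (tail R M C + tail R M C) + (tail R M C + tail R M C) := by ring
  rw [e, ENNReal.ofReal_add (by linarith) (by linarith), ENNReal.ofReal_add ht ht]
  exact add_le_add
    ((measure_union_le _ _).trans (add_le_add (form_tail hsa hu1 hM hk hC)
      (form_tail hsa hu2 hM hk hC)))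
    ((measure_union_le _ _).trans (add_le_add (form_tail hsa hu3 hM hk hC)
      (form_tail hsa hu4 hM hk hC)))

variable [Countable ι]

/-- the law of the potential and the energy -/
noncomputable def LL (ι : Type) (ν : Measure ℝ) (M : ℝ) : Measure ((ι → ℝ) × ℝ) :=
  (PP ι ν).prod (volume.restrict (Icc (-M) M))

instance (ν : Measure ℝ) [IsProbabilityMeasure ν] (M : ℝ) : IsFiniteMeasure (LL ι ν M) := by
  unfold LL
  infer_instance

theorem lim_tail (ν : Measure ℝ) [IsProbabilityMeasure ν] {M : ℝ} (hM : 0 ≤ M) {C : ℝ}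
    (hC : 0 < C) {u v : L2 ι} {R : ℝ} (huv : ‖u‖ + ‖v‖ ≤ R) {h : (ι → ℝ) × ℝ → ℂ}
    (hh : ∀ᵐ q ∂(LL ι ν M), Tendsto (fun k => inner ℂ u (Rz (P.H q.1) (zk k q.2) v)) atTop
      (𝓝 (h q))) :
    LL ι ν M {q | C + 1 < ‖h q‖} ≤ ENNReal.ofReal (4 * tail R M C) := by
  set A : ℕ → Set ((ι → ℝ) × ℝ) := fun k =>
    {q | C + 1 < ‖inner ℂ u (Rz (P.H q.1) (zk k q.2) v)‖} with hA
  have hAm : ∀ k, MeasurableSet (A k) := fun k =>
    measurableSet_lt measurable_const (P.VV_meas k u v).norm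
  have hAk : ∀ k, 1 ≤ k → LL ι ν M (A k) ≤ ENNReal.ofReal (4 * tail R M C) := by
    intro k hk
    unfold LL
    rw [Measure.prod_apply (hAm k)]
    calc ∫⁻ V, (volume.restrict (Icc (-M) M)) (Prod.mk V ⁻¹' A k) ∂(PP ι ν)
        ≤ ∫⁻ _, ENNReal.ofReal (4 * tail R M C) ∂(PP ι ν) :=
          lintegral_mono fun V => VV_tail P V u v huv hM hk hC
      _ = _ := by rw [lintegral_const, measure_univ, mul_one]
  set U : ℕ → Set ((ι → ℝ) × ℝ) := fun n => ⋂ k, ⋂ (_ : n ≤ k), A k with hU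
  have hmono : Monotone U := by
    intro a b hab q hq
    simp only [hU, mem_iInter] at hq ⊢
    exact fun k hk => hq k (hab.trans hk)
  have hUle : ∀ n, LL ι ν M (U n) ≤ ENNReal.ofReal (4 * tail R M C) := by
    intro n
    refine (measure_mono ?_).trans (hAk (n + 1) (by omega))
    intro q hq
    simp only [hU, mem_iInter] at hq
    exact hq (n + 1) (by omega)
  have hsub : ({q | C + 1 < ‖h q‖} : Set ((ι → ℝ) × ℝ)) ≤ᵐ[LL ι ν M] (⋃ n, U n : Set _) := by
    filter_upwards [hh] with q hq hlt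
    have hlt' : C + 1 < ‖h q‖ := hlt
    have h1 := (tendsto_order.1 hq.norm).1 _ hlt'
    obtain ⟨n, hn⟩ := eventually_atTop.1 h1
    change q ∈ ⋃ n, U n
    rw [mem_iUnion]
    refine ⟨n, ?_⟩
    simp only [hU, mem_iInter]
    exact fun k hk => hn k hk
  refine (measure_mono_ae hsub).trans ?_
  rw [hmono.measure_iUnion]
  exact iSup_le hUle

end Pool.Agent.Q233.BN
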